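import Pool.Agent.L7h88.TS.Stm
import Pool.Agent.L7h50.TS.Tau

set_option autoImplicit false

/-! Project TS: the third factor (`S_V1`). -/

namespace Pool.Agent.L7h50.TS
open Finset
open Pool.Agent.H373R2.T7 (lamz Vz pz)
open Pool.Agent.H807R2.Dav (ee)
open Pool.Agent.L7h88.TS

/-! ### small facts -/

lemma ev_pow (k : ℕ) (c : ℝ) : ∃ X₀ : ℕ, ∀ X : ℕ, X₀ ≤ X →
    c * Real.log X ^ k ≤ (X : ℝ) ^ (1 / 10 : ℝ) := by
  have h := (isLittleO_log_rpow_rpow_atTop (k : ℝ) (show (0 : ℝ) < 1 / 10 by norm_num)).bound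
    (show 0 < 1 / (|c| + 1) by positivity)
  have h2 := (tendsto_natCast_atTop_atTop (R := ℝ)).eventually h
  obtain ⟨x0, hx0⟩ := Filter.eventually_atTop.1 h2
  refine ⟨max x0 1, fun X hX => ?_⟩
  have h3 := hx0 X ((le_max_left _ _).trans hX)
  have hL : 0 ≤ Real.log X := Real.log_natCast_nonneg X
  rw [Real.norm_of_nonneg (by positivity), Real.norm_of_nonneg (by positivity),
    Real.rpow_natCast, one_div, inv_mul_eq_div, le_div_iff₀ (by positivity)] at h3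
  have h4 : c ≤ |c| := le_abs_self c
  have h5 : 0 ≤ Real.log X ^ k := by positivity
  nlinarith

lemma Par.P_ge {X W P : ℕ} (h : Par X W P) (hX : 1 ≤ X) : (X : ℝ) ^ (1 / 10 : ℝ) ≤ 16 * P := by
  have hX0 : (0 : ℝ) < X := by exact_mod_cast hX
  have h1 : (X : ℝ) ≤ 16 * (W * P) := by exact_mod_cast h.h16
  have h2 : (X : ℝ) = (X : ℝ) ^ (1 / 10 : ℝ) * (X : ℝ) ^ (9 / 10 : ℝ) := by
    rw [← Real.rpow_add hX0]; norm_num
  have h3 : (0 : ℝ) < (X : ℝ) ^ (9 / 10 : ℝ) := Real.rpow_pos_of_pos hX0 _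
  have h4 : (X : ℝ) ^ (1 / 10 : ℝ) * (X : ℝ) ^ (9 / 10 : ℝ) ≤ (16 * P) * (X : ℝ) ^ (9 / 10 : ℝ) := by
    rw [← h2]
    have h5 : (W : ℝ) * P ≤ (X : ℝ) ^ (9 / 10 : ℝ) * P :=
      mul_le_mul_of_nonneg_right h.h9 (Nat.cast_nonneg _)
    nlinarith
  exact le_of_mul_le_mul_right h4 h3

lemma lp_nonneg (m : ℕ) : 0 ≤ lp m := by
  unfold Pool.Agent.L7h88.TS.lp
  split_ifs
  · exact Real.log_natCast_nonneg m
  · exact le_rfl

lemma lp_le {m X : ℕ} (h : m ≤ X) : lp m ≤ Real.log X := by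
  unfold Pool.Agent.L7h88.TS.lp
  split_ifs with hm
  · exact Real.log_le_log (by exact_mod_cast hm.pos) (by exact_mod_cast h)
  · exact Real.log_natCast_nonneg X

lemma lamz_le' (z n : ℕ) : lamz z n ≤ (Vz z)⁻¹ := by
  unfold lamz
  split_ifs
  · exact le_rfl
  · exact inv_nonneg.2 (Pool.Agent.H373R2.T7.Vz_pos z).le

lemma gz_abs {z m X : ℕ} (h : m ≤ X) (hz : (Vz z)⁻¹ ≤ Real.log X) : |gz z m| ≤ Real.log X := by
  unfold gz
  have h1 := lp_nonneg m
  have h2 := lp_le h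
  have h3 := Pool.Agent.H373R2.T7.lamz_nonneg z m
  have h4 := (lamz_le' z m).trans hz
  rw [abs_le]
  constructor <;> linarith

/-! ### expansion of the square -/

lemma shift (X u : ℕ) (G : ℤ → ℝ) (hG : ∀ m, m ∉ Icc (1 : ℤ) X → G m = 0) (hu : u ≤ X) (d : ℤ) :
    ∑ n ∈ Icc (1 : ℤ) (2 * X), G (n - u) * G (n - u + d) =
      ∑ m ∈ Icc (1 : ℤ) X, G m * G (m + d) := by
  have h1 : ∑ m ∈ Icc (1 : ℤ) X, G m * G (m + d) =
      ∑ n ∈ Icc (1 + (u : ℤ)) (X + u), G (n - u) * G (n - u + d) := by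
    rw [← Finset.map_add_right_Icc, sum_map]
    apply sum_congr rfl
    intro m _
    simp
  rw [h1]
  symm
  apply sum_subset
  · intro n hn
    rw [mem_Icc] at hn ⊢
    have : (u : ℤ) ≤ X := by exact_mod_cast hu
    omega
  · intro n _ hn
    rw [hG (n - u), zero_mul]
    intro h
    apply hn
    rw [mem_Icc] at h ⊢
    omega

lemma expand (X : ℕ) (G : ℤ → ℝ) (hG : ∀ m, m ∉ Icc (1 : ℤ) X → G m = 0) (S : Finset ℕ)
    (c : ℕ → ℝ) (u : ℕ → ℕ) (hu : ∀ p ∈ S, u p ≤ X) (K : ℝ) (hc : ∀ p ∈ S, |c p| ≤ K) :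
    ∑ n ∈ Ioc (X / 2) X, (∑ p ∈ S, c p * G ((n : ℤ) - u p)) ^ 2 ≤
      K ^ 2 * ∑ p ∈ S, ∑ p' ∈ S, |∑ m ∈ Icc (1 : ℤ) X, G m * G (m + ((u p : ℤ) - u p'))| := by
  have h1 : ∑ n ∈ Ioc (X / 2) X, (∑ p ∈ S, c p * G ((n : ℤ) - u p)) ^ 2 ≤
      ∑ n ∈ Icc (1 : ℤ) (2 * X), (∑ p ∈ S, c p * G (n - u p)) ^ 2 := by
    have h2 : ∑ n ∈ Ioc (X / 2) X, (∑ p ∈ S, c p * G ((n : ℤ) - u p)) ^ 2 =
        ∑ n ∈ (Ioc (X / 2) X).image (fun n : ℕ => (n : ℤ)), (∑ p ∈ S, c p * G (n - u p)) ^ 2 := by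
      rw [sum_image]
      intro a _ b _ hab
      have : (a : ℤ) = b := hab
      exact_mod_cast this
    rw [h2]
    apply sum_le_sum_of_subset_of_nonneg
    · intro n hn
      obtain ⟨m, hm, rfl⟩ := mem_image.1 hn
      rw [mem_Ioc] at hm
      rw [mem_Icc]
      constructor
      · exact_mod_cast (by omega : 1 ≤ m)
      · exact_mod_cast (by omega : m ≤ 2 * X)
    · intro n _ _
      positivity
  refine h1.trans ?_
  have h3 : ∑ n ∈ Icc (1 : ℤ) (2 * X), (∑ p ∈ S, c p * G (n - u p)) ^ 2 =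
      ∑ p ∈ S, ∑ p' ∈ S, c p * c p' * ∑ m ∈ Icc (1 : ℤ) X, G m * G (m + ((u p : ℤ) - u p')) := by
    have h4 : ∀ n : ℤ, (∑ p ∈ S, c p * G (n - u p)) ^ 2 =
        ∑ p ∈ S, ∑ p' ∈ S, c p * c p' * (G (n - u p) * G (n - u p + ((u p : ℤ) - u p'))) := by
      intro n
      rw [sq, sum_mul_sum]
      apply sum_congr rfl; intro p _
      apply sum_congr rfl; intro p' _
      rw [show n - (u p : ℤ) + ((u p : ℤ) - u p') = n - u p' by ring]
      ring
    rw [sum_congr rfl fun n _ => h4 n, sum_comm]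
    apply sum_congr rfl; intro p hp
    rw [sum_comm]
    apply sum_congr rfl; intro p' _
    rw [← mul_sum, shift X (u p) G hG (hu p hp)]
  rw [h3, mul_sum]
  apply sum_le_sum; intro p hp
  rw [mul_sum]
  apply sum_le_sum; intro p' hp'
  refine (le_abs_self _).trans ?_
  rw [abs_mul, abs_mul, sq]
  apply mul_le_mul_of_nonneg_right _ (abs_nonneg _)
  exact mul_le_mul (hc p hp) (hc p' hp') (abs_nonneg _) ((abs_nonneg _).trans (hc p hp))

/-! ### counting -/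

lemma count_pairs (X W P p : ℕ) (hWP : W * P ≤ X) (h4 : 4 * P ≤ W) (hp : p ∈ Ioc (P / 2) P)
    (f : ℤ → ℝ) (hf : ∀ h, 0 ≤ f h) :
    ∑ w ∈ Ioc (W / 2) W, ∑ p' ∈ (Ioc (P / 2) P).erase p,
      f (((p : ℤ) - p') * ((w : ℤ) - p - p')) ≤
      ∑ h ∈ (Icc (-(X : ℤ)) X).erase 0, 2 * (h.natAbs.divisors.card : ℝ) * f h := by
  classical
  rw [mem_Ioc] at hp
  rw [← sum_product']
  set Q := Ioc (W / 2) W ×ˢ (Ioc (P / 2) P).erase p with hQ
  let g : ℕ × ℕ → ℤ := fun q => ((p : ℤ) - q.2) * ((q.1 : ℤ) - p - q.2)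
  have hmem : ∀ q ∈ Q, (W / 2 < q.1 ∧ q.1 ≤ W) ∧ q.2 ≠ p ∧ P / 2 < q.2 ∧ q.2 ≤ P := by
    intro q hq
    rw [hQ, mem_product, mem_erase, mem_Ioc, mem_Ioc] at hq
    exact ⟨hq.1, hq.2.1, hq.2.2⟩
  have hpos : ∀ q ∈ Q, (1 : ℤ) ≤ (q.1 : ℤ) - p - q.2 := by
    intro q hq
    have := hmem q hq
    omega
  have hmaps : ∀ q ∈ Q, g q ∈ (Icc (-(X : ℤ)) X).erase 0 := by
    intro q hq
    have h1 := hmem q hq
    have h2 := hpos q hq
    rw [mem_erase, mem_Icc, ← abs_le]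
    constructor
    · refine mul_ne_zero ?_ (by omega)
      intro h
      apply h1.2.1
      omega
    · simp only [g]
      rw [abs_mul]
      have h3 : |(p : ℤ) - q.2| ≤ P := by rw [abs_le]; omega
      have h5 : |(q.1 : ℤ) - p - q.2| ≤ W := by rw [abs_le]; omega
      calc |(p : ℤ) - q.2| * |(q.1 : ℤ) - p - q.2| ≤ P * W :=
            mul_le_mul h3 h5 (abs_nonneg _) (by positivity)
        _ = ((W * P : ℕ) : ℤ) := by push_cast; ring
        _ ≤ X := by exact_mod_cast hWP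
  have h0 : ∑ q ∈ Q, f (((p : ℤ) - q.2) * ((q.1 : ℤ) - p - q.2)) =
      ∑ h ∈ (Icc (-(X : ℤ)) X).erase 0, ∑ q ∈ Q.filter (fun q => g q = h), f (g q) :=
    (sum_fiberwise_of_maps_to hmaps _).symm
  rw [h0]
  apply sum_le_sum
  intro h hh
  have hne : h ≠ 0 := (mem_erase.1 hh).1
  have h1 : ∑ q ∈ Q.filter (fun q => g q = h), f (g q) =
      ((Q.filter (fun q => g q = h)).card : ℝ) * f h := by
    rw [sum_congr rfl (g := fun _ => f h) fun q hq => by rw [(mem_filter.1 hq).2], sum_const,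
      nsmul_eq_mul]
  rw [h1]
  apply mul_le_mul_of_nonneg_right _ (hf h)
  have h2 : (Q.filter (fun q => g q = h)).card ≤
      (h.natAbs.divisors ×ˢ (univ : Finset Bool)).card := by
    apply card_le_card_of_injOn (fun q => (((p : ℤ) - q.2).natAbs, decide (q.2 < p)))
    · intro q hq
      have hq' := mem_filter.1 (mem_coe.1 hq)
      rw [mem_coe, mem_product]
      refine ⟨?_, mem_univ _⟩
      rw [Nat.mem_divisors]
      refine ⟨?_, by simpa using hne⟩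
      rw [Int.natAbs_dvd_natAbs, ← hq'.2]
      exact dvd_mul_right _ _
    · intro q hq q' hq' he
      have hq1 := mem_filter.1 (mem_coe.1 hq)
      have hq1' := mem_filter.1 (mem_coe.1 hq')
      simp only [Prod.mk.injEq, decide_eq_decide] at he
      have e1 : q.2 = q'.2 := by
        have ha := hmem q hq1.1
        have hb := hmem q' hq1'.1
        have h3 := he.1
        by_cases hlt : q.2 < p
        · have hlt' := he.2.1 hlt
          omega
        · have hlt' : ¬ q'.2 < p := fun h => hlt (he.2.2 h)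
          omega
      have e2 : q.1 = q'.1 := by
        have h3 : g q = g q' := hq1.2.trans hq1'.2.symm
        simp only [g] at h3
        rw [e1] at h3
        have h5 : (p : ℤ) - q'.2 ≠ 0 := by
          have hb := hmem q' hq1'.1
          intro h; apply hb.2.1; omega
        have h6 := mul_left_cancel₀ h5 h3
        omega
      exact Prod.ext e2 e1
  rw [card_product, card_univ, Fintype.card_bool] at h2
  have h3 : ((Q.filter (fun q => g q = h)).card : ℝ) ≤ ((h.natAbs.divisors.card * 2 : ℕ) : ℝ) := by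
    exact_mod_cast h2
  push_cast at h3
  linarith

lemma tau_sq_int (X : ℕ) : ∑ h ∈ (Icc (-(X : ℤ)) X).erase 0, (h.natAbs.divisors.card : ℝ) ^ 2 ≤
    2 * (X * (1 + Real.log X) ^ 3) := by
  classical
  have h1 : (Icc (-(X : ℤ)) X).erase 0 ⊆
      (Icc 1 X).image (fun n : ℕ => (n : ℤ)) ∪ (Icc 1 X).image (fun n : ℕ => -(n : ℤ)) := by
    intro h hh
    rw [mem_erase, mem_Icc] at hh
    rw [mem_union, mem_image, mem_image]
    rcases lt_or_gt_of_ne hh.1 with h0 | h0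
    · right
      exact ⟨h.natAbs, by rw [mem_Icc]; omega, by omega⟩
    · left
      exact ⟨h.natAbs, by rw [mem_Icc]; omega, by omega⟩
  refine (sum_le_sum_of_subset_of_nonneg h1 fun _ _ _ => by positivity).trans ?_
  have h2 := tau_sq X
  have h3 := sum_union_inter (s₁ := (Icc 1 X).image (fun n : ℕ => (n : ℤ)))
    (s₂ := (Icc 1 X).image (fun n : ℕ => -(n : ℤ)))
    (f := fun h : ℤ => (h.natAbs.divisors.card : ℝ) ^ 2)
  have h4 : 0 ≤ ∑ h ∈ (Icc 1 X).image (fun n : ℕ => (n : ℤ)) ∩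
      (Icc 1 X).image (fun n : ℕ => -(n : ℤ)), (h.natAbs.divisors.card : ℝ) ^ 2 :=
    sum_nonneg fun _ _ => by positivity
  rw [sum_image (f := fun h : ℤ => (h.natAbs.divisors.card : ℝ) ^ 2) (g := fun n : ℕ => (n : ℤ))
    (fun a _ b _ h => by
      have : (a : ℤ) = b := h
      exact_mod_cast this),
    sum_image (f := fun h : ℤ => (h.natAbs.divisors.card : ℝ) ^ 2) (g := fun n : ℕ => -(n : ℤ))
    (fun a _ b _ h => by
      have : -(a : ℤ) = -b := h
      omega)] at h3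
  simp only [Int.natAbs_natCast, Int.natAbs_neg] at h3
  linarith

/-! ### the third factor as a function on the integers -/

/-- `ev (gz z)` on `[1, X]` -/
noncomputable def GG (z X : ℕ) (m : ℤ) : ℝ := if m ∈ Icc (1 : ℤ) X then ev (gz z) m.toNat else 0

lemma GG_zero (z X : ℕ) (m : ℤ) (h : m ∉ Icc (1 : ℤ) X) : GG z X m = 0 := if_neg h

lemma GG_nat (z X : ℕ) {m : ℕ} (h1 : 1 ≤ m) (h2 : m ≤ X) : GG z X (m : ℤ) = ev (gz z) m := by
  unfold GG
  rw [if_pos (by rw [mem_Icc]; omega), Int.toNat_natCast]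

lemma GG_abs {z X : ℕ} (hz : (Vz z)⁻¹ ≤ Real.log X) (m : ℤ) : |GG z X m| ≤ Real.log X := by
  have hL : 0 ≤ Real.log X := Real.log_natCast_nonneg X
  unfold GG
  split_ifs with h
  · unfold ev
    split_ifs
    · refine gz_abs ?_ hz
      rw [mem_Icc] at h
      omega
    · simpa using hL
  · simpa using hL

lemma GG_sum (z X : ℕ) (α : ℝ) :
    ∑ m ∈ Icc (1 : ℤ) X, ((GG z X m : ℝ) : ℂ) * ee ((m : ℝ) * α) =
      ∑ k ∈ Icc 1 (X / 2), ((gz z k : ℝ) : ℂ) * ee ((k : ℝ) * (2 * α)) := by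
  have h1 : ∑ k ∈ Icc 1 (X / 2), ((gz z k : ℝ) : ℂ) * ee ((k : ℝ) * (2 * α)) =
      ∑ m ∈ (Icc 1 (X / 2)).image (fun k : ℕ => ((2 * k : ℕ) : ℤ)),
        ((GG z X m : ℝ) : ℂ) * ee ((m : ℝ) * α) := by
    rw [sum_image (fun a _ b _ h => by
      have : ((2 * a : ℕ) : ℤ) = ((2 * b : ℕ) : ℤ) := h
      omega)]
    apply sum_congr rfl
    intro k hk
    rw [mem_Icc] at hk
    rw [GG_nat z X (by omega) (by omega)]
    unfold ev
    rw [if_pos (even_two_mul k), Nat.mul_div_cancel_left _ (by norm_num)]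
    congr 2
    push_cast
    ring
  rw [h1]
  symm
  apply sum_subset
  · intro m hm
    obtain ⟨k, hk, rfl⟩ := mem_image.1 hm
    rw [mem_Icc] at hk ⊢
    omega
  · intro m hm hm'
    have h2 : ¬ Even m.toNat := by
      rintro ⟨k, hk⟩
      apply hm'
      rw [mem_Icc] at hm
      rw [mem_image]
      exact ⟨k, by rw [mem_Icc]; omega, by omega⟩
    unfold GG
    rw [if_pos hm]
    unfold ev
    rw [if_neg h2]
    simp

/-- **V1** -/
theorem s_V1 (hSUP : S_SUP) (hAC : S_AC) : S_V1 := by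
  intro A
  obtain ⟨B, hB⟩ := hSUP (A + 9)
  refine ⟨B, fun E => ?_⟩
  obtain ⟨n1, h1⟩ := hB (2 * E)
  obtain ⟨n2, h2⟩ := Pool.Agent.H373R2.T7.Vz_inv_small E
  obtain ⟨n3, h3⟩ := ev_pow (A + 6) 32
  obtain ⟨n4, h4⟩ := Pool.Agent.H373R2.T7.ev_L' (2 ^ (A + 9) + 256)
  refine ⟨max (max (2 * n1 + 1) n2) (max n3 (max n4 16)), fun X W P z hX hPar hz1 hz2 => ?_⟩
  have b1 : 2 * n1 + 1 ≤ X := ((le_max_left _ _).trans (le_max_left _ _)).trans hX
  have b2 : n2 ≤ X := ((le_max_right _ _).trans (le_max_left _ _)).trans hX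
  have b3 : n3 ≤ X := ((le_max_left _ _).trans (le_max_right _ _)).trans hX
  have b4 : n4 ≤ X := (((le_max_left _ _).trans (le_max_right _ _)).trans (le_max_right _ _)).trans hX
  have b5 : 16 ≤ X := (((le_max_right _ _).trans (le_max_right _ _)).trans (le_max_right _ _)).trans hX
  have c3 := h3 X b3
  have c4 := h4 X b4
  set L := Real.log X with hL
  have hpow : (0 : ℝ) < 2 ^ (A + 9) := by positivity
  have hL256 : 256 ≤ L := by linarith
  have hL0 : 0 < L := by linarith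
  have hz0 : 1 ≤ z := by
    have : (0 : ℝ) < z := (by positivity : (0 : ℝ) < L ^ B).trans_le hz1
    exact_mod_cast this
  have hV : (Vz z)⁻¹ ≤ L := h2 X b2 z hz0 hz2
  -- the exponential sum
  set M : ℝ := X / L ^ (A + 8) with hM
  have hM0 : 0 ≤ M := by positivity
  have hXr : (16 : ℝ) ≤ X := by exact_mod_cast b5
  have hsup : ∀ α : ℝ, ‖∑ m ∈ Icc (1 : ℤ) X, ((GG z X m : ℝ) : ℂ) * ee ((m : ℝ) * α)‖ ≤ M := by
    intro α
    rw [GG_sum]
    have hN : n1 ≤ X / 2 := by omega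
    have hNr : (X : ℝ) / 4 ≤ ((X / 2 : ℕ) : ℝ) := by
      have : X ≤ 4 * (X / 2) := by omega
      have : (X : ℝ) ≤ 4 * ((X / 2 : ℕ) : ℝ) := by exact_mod_cast this
      linarith
    have hNr2 : ((X / 2 : ℕ) : ℝ) ≤ X / 2 := by
      have : 2 * (X / 2) ≤ X := by omega
      have : 2 * ((X / 2 : ℕ) : ℝ) ≤ X := by exact_mod_cast this
      linarith
    have hN0 : (0 : ℝ) < ((X / 2 : ℕ) : ℝ) := by linarith
    have hlogN : L / 2 ≤ Real.log ((X / 2 : ℕ) : ℝ) := by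
      have e1 : Real.log (X / 4) ≤ Real.log ((X / 2 : ℕ) : ℝ) :=
        Real.log_le_log (by linarith) hNr
      rw [Real.log_div (by linarith) (by norm_num)] at e1
      have e2 : Real.log 4 ≤ 3 := by
        have := Real.log_le_sub_one_of_pos (show (0 : ℝ) < 4 by norm_num)
        linarith
      linarith
    have hlogN2 : Real.log ((X / 2 : ℕ) : ℝ) ≤ L :=
      Real.log_le_log hN0 (by linarith)
    have e1 := h1 (X / 2) hN z ((pow_le_pow_left₀ (by linarith) hlogN2 B).trans hz1) (by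
      refine hz2.trans ?_
      have e3 : L ≤ Real.log ((X / 2 : ℕ) : ℝ) ^ 2 := by nlinarith
      calc L ^ E ≤ (Real.log ((X / 2 : ℕ) : ℝ) ^ 2) ^ E := pow_le_pow_left₀ hL0.le e3 E
        _ = _ := by rw [← pow_mul]) (2 * α)
    refine e1.trans ?_
    have e2 : (L / 2) ^ (A + 9) ≤ Real.log ((X / 2 : ℕ) : ℝ) ^ (A + 9) :=
      pow_le_pow_left₀ (by linarith) hlogN _
    calc ((X / 2 : ℕ) : ℝ) / Real.log ((X / 2 : ℕ) : ℝ) ^ (A + 9) ≤ (X / 2) / (L / 2) ^ (A + 9) := by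
          gcongr
      _ = (2 ^ (A + 9) / 2) * (X / L ^ (A + 9)) := by rw [div_pow]; field_simp
      _ ≤ L * (X / L ^ (A + 9)) := by
          apply mul_le_mul_of_nonneg_right _ (by positivity)
          linarith
      _ = M := by rw [hM, show A + 9 = (A + 8) + 1 by ring, pow_succ]; field_simp
  -- autocorrelation
  let Ac : ℤ → ℝ := fun h => ∑ m ∈ Icc (1 : ℤ) X, GG z X m * GG z X (m + h)
  have hG2 : ∑ m ∈ Icc (1 : ℤ) X, GG z X m ^ 2 ≤ X * L ^ 2 := by
    have e1 : ∀ m ∈ Icc (1 : ℤ) X, GG z X m ^ 2 ≤ L ^ 2 := by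
      intro m _
      rw [← sq_abs]
      exact pow_le_pow_left₀ (abs_nonneg _) (GG_abs hV m) 2
    refine (sum_le_sum e1).trans ?_
    rw [sum_const, nsmul_eq_mul, Int.card_Icc]
    simp
  have hA2 : ∑ h ∈ Icc (-(X : ℤ)) X, Ac h ^ 2 ≤ M ^ 2 * (X * L ^ 2) :=
    (hAC X (GG z X) M (GG_zero z X) hsup).trans (mul_le_mul_of_nonneg_left hG2 (by positivity))
  have hA0 : |Ac 0| ≤ X * L ^ 2 := by
    have e1 : Ac 0 = ∑ m ∈ Icc (1 : ℤ) X, GG z X m ^ 2 := by
      simp only [Ac, add_zero, sq]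
    rw [e1, abs_of_nonneg (sum_nonneg fun _ _ => by positivity)]
    exact hG2
  -- Cauchy
  set T := (Icc (-(X : ℤ)) X).erase 0 with hT
  have hoff : ∑ h ∈ T, 2 * (h.natAbs.divisors.card : ℝ) * |Ac h| ≤ 8 * X * M * L ^ 3 := by
    have e1 := sum_mul_sq_le_sq_mul_sq T (fun h => 2 * (h.natAbs.divisors.card : ℝ)) fun h => |Ac h|
    have e2 : ∑ h ∈ T, (2 * (h.natAbs.divisors.card : ℝ)) ^ 2 ≤ 8 * X * (1 + L) ^ 3 := by
      have := tau_sq_int X
      simp only [mul_pow]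
      rw [← mul_sum]
      linarith
    have e3 : ∑ h ∈ T, |Ac h| ^ 2 ≤ M ^ 2 * (X * L ^ 2) := by
      simp only [sq_abs]
      exact (sum_le_sum_of_subset_of_nonneg (erase_subset _ _) fun _ _ _ => by positivity).trans hA2
    have e4 : (1 + L) ^ 3 ≤ (2 * L) ^ 3 := pow_le_pow_left₀ (by linarith) (by linarith) 3
    have e5 : (∑ h ∈ T, 2 * (h.natAbs.divisors.card : ℝ) * |Ac h|) ^ 2 ≤ (8 * X * M * L ^ 3) ^ 2 := by
      refine e1.trans ?_
      calc _ ≤ (8 * X * (2 * L) ^ 3) * (M ^ 2 * (X * L ^ 2)) := by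
            apply mul_le_mul (e2.trans (by gcongr)) e3 (sum_nonneg fun _ _ => by positivity)
              (by positivity)
        _ = 64 * X ^ 2 * M ^ 2 * L ^ 5 := by ring
        _ ≤ 64 * X ^ 2 * M ^ 2 * L ^ 6 := by
            apply mul_le_mul_of_nonneg_left _ (by positivity)
            exact pow_le_pow_right₀ (by linarith) (by norm_num)
        _ = _ := by ring
    exact le_of_sq_le_sq e5 (by positivity)
  -- every `w`
  have hWX : W ≤ X := by
    have h16 := hPar.h16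
    have h8 := hPar.h8
    have : P ≠ 0 := by
      rintro rfl
      simp at h16
      omega
    have : W ≤ W * P := Nat.le_mul_of_pos_right _ (by omega)
    omega
  have hPX : P ≤ X := by have := hPar.h4; omega
  have hw : ∀ w ∈ Ioc (W / 2) W, ∑ n ∈ Ioc (X / 2) X, tri lp lp (gz z) P n w ^ 2 ≤
      (L ^ 2) ^ 2 * ∑ p ∈ Ioc (P / 2) P, ∑ p' ∈ Ioc (P / 2) P,
        |Ac (((p : ℤ) - p') * ((w : ℤ) - p - p'))| := by
    intro w hw
    rw [mem_Ioc] at hw
    have hpw : ∀ p ∈ Ioc (P / 2) P, p ≤ w ∧ p * (w - p) ≤ X / 8 := by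
      intro p hp
      rw [mem_Ioc] at hp
      have h4' := hPar.h4
      have h8' := hPar.h8
      refine ⟨by omega, ?_⟩
      have : p * (w - p) ≤ P * W := Nat.mul_le_mul hp.2 (by omega)
      rw [Nat.le_div_iff_mul_le (by norm_num)]
      calc p * (w - p) * 8 ≤ P * W * 8 := by omega
        _ = 8 * (W * P) := by ring
        _ ≤ X := h8'
    have e1 := expand X (GG z X) (GG_zero z X) (Ioc (P / 2) P) (fun p => lp p * lp (w - p))
      (fun p => p * (w - p)) (fun p hp => (hpw p hp).2.trans (Nat.div_le_self _ _)) (L ^ 2) (by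
        intro p hp
        rw [mem_Ioc] at hp
        rw [abs_mul, sq, abs_of_nonneg (lp_nonneg _), abs_of_nonneg (lp_nonneg _)]
        exact mul_le_mul (lp_le (by omega)) (lp_le (by omega)) (lp_nonneg _) hL0.le)
    have e2 : ∑ n ∈ Ioc (X / 2) X, tri lp lp (gz z) P n w ^ 2 =
        ∑ n ∈ Ioc (X / 2) X, (∑ p ∈ Ioc (P / 2) P, lp p * lp (w - p) *
          GG z X ((n : ℤ) - ((p * (w - p) : ℕ) : ℤ))) ^ 2 := by
      apply sum_congr rfl
      intro n hn
      rw [mem_Ioc] at hn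
      unfold tri
      congr 1
      apply sum_congr rfl
      intro p hp
      have := (hpw p hp).2
      rw [← Nat.cast_sub (by omega), GG_nat z X (by omega) (by omega)]
    rw [e2]
    refine e1.trans (le_of_eq ?_)
    congr 1
    apply sum_congr rfl; intro p hp
    apply sum_congr rfl; intro p' hp'
    have e3 : ((p * (w - p) : ℕ) : ℤ) - ((p' * (w - p') : ℕ) : ℤ) =
        ((p : ℤ) - p') * ((w : ℤ) - p - p') := by
      rw [Nat.cast_mul, Nat.cast_mul, Nat.cast_sub (hpw p hp).1, Nat.cast_sub (hpw p' hp').1]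
      ring
    rw [e3]
  -- all together
  have hcardW : ((Ioc (W / 2) W).card : ℝ) ≤ W := by
    rw [Nat.card_Ioc]; exact_mod_cast Nat.sub_le _ _
  have hcardP : ((Ioc (P / 2) P).card : ℝ) ≤ P := by
    rw [Nat.card_Ioc]; exact_mod_cast Nat.sub_le _ _
  have htot : ∑ w ∈ Ioc (W / 2) W, ∑ n ∈ Ioc (X / 2) X, tri lp lp (gz z) P n w ^ 2 ≤
      L ^ 4 * (W * (P * (X * L ^ 2)) + P * (8 * X * M * L ^ 3)) := by
    refine (sum_le_sum hw).trans ?_
    rw [← mul_sum, show (L ^ 2) ^ 2 = L ^ 4 by ring]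
    apply mul_le_mul_of_nonneg_left _ (by positivity)
    have e1 : ∀ w ∈ Ioc (W / 2) W, ∑ p ∈ Ioc (P / 2) P, ∑ p' ∈ Ioc (P / 2) P,
        |Ac (((p : ℤ) - p') * ((w : ℤ) - p - p'))| ≤ P * (X * L ^ 2) + ∑ p ∈ Ioc (P / 2) P,
          ∑ p' ∈ (Ioc (P / 2) P).erase p, |Ac (((p : ℤ) - p') * ((w : ℤ) - p - p'))| := by
      intro w _
      have e2 : ∀ p ∈ Ioc (P / 2) P, ∑ p' ∈ Ioc (P / 2) P,
          |Ac (((p : ℤ) - p') * ((w : ℤ) - p - p'))| ≤ X * L ^ 2 +
          ∑ p' ∈ (Ioc (P / 2) P).erase p, |Ac (((p : ℤ) - p') * ((w : ℤ) - p - p'))| := by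
        intro p hp
        rw [← add_sum_erase _ _ hp, sub_self, zero_mul]
        linarith
      refine (sum_le_sum e2).trans ?_
      rw [sum_add_distrib, sum_const, nsmul_eq_mul]
      have := mul_le_mul_of_nonneg_right hcardP (show 0 ≤ X * L ^ 2 by positivity)
      linarith
    refine (sum_le_sum e1).trans ?_
    rw [sum_add_distrib, sum_const, nsmul_eq_mul]
    have e3 := mul_le_mul_of_nonneg_right hcardW (show 0 ≤ P * (X * L ^ 2) by positivity)
    have e4 : ∑ w ∈ Ioc (W / 2) W, ∑ p ∈ Ioc (P / 2) P, ∑ p' ∈ (Ioc (P / 2) P).erase p,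
        |Ac (((p : ℤ) - p') * ((w : ℤ) - p - p'))| ≤ P * (8 * X * M * L ^ 3) := by
      rw [sum_comm]
      have e5 : ∀ p ∈ Ioc (P / 2) P, ∑ w ∈ Ioc (W / 2) W, ∑ p' ∈ (Ioc (P / 2) P).erase p,
          |Ac (((p : ℤ) - p') * ((w : ℤ) - p - p'))| ≤ 8 * X * M * L ^ 3 := by
        intro p hp
        exact (count_pairs X W P p (by have := hPar.h8; omega) hPar.h4 hp (fun h => |Ac h|)
          fun _ => abs_nonneg _).trans hoff
      refine (sum_le_sum e5).trans ?_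
      rw [sum_const, nsmul_eq_mul]
      exact mul_le_mul_of_nonneg_right hcardP (by positivity)
    linarith
  refine htot.trans ?_
  -- numerics
  have hP16 := Par.P_ge hPar (by omega)
  have hPL : 2 * L ^ (A + 6) ≤ P := by linarith
  have hX16 : (X : ℝ) ≤ 16 * (W * P) := by exact_mod_cast hPar.h16
  have t1 : L ^ 4 * (W * (P * (X * L ^ 2))) ≤ (P : ℝ) ^ 2 * W * X / L ^ A / 2 := by
    rw [le_div_iff₀ (by norm_num), le_div_iff₀ (by positivity)]
    calc L ^ 4 * (W * (P * (X * L ^ 2))) * 2 * L ^ A = (2 * L ^ (A + 6)) * (W * P * X) := by ring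
      _ ≤ P * (W * P * X) := mul_le_mul_of_nonneg_right hPL (by positivity)
      _ = _ := by ring
  have t2 : L ^ 4 * (P * (8 * X * M * L ^ 3)) ≤ (P : ℝ) ^ 2 * W * X / L ^ A / 2 := by
    rw [hM, le_div_iff₀ (by norm_num), le_div_iff₀ (by positivity)]
    have e1 : L ^ 4 * (P * (8 * X * (X / L ^ (A + 8)) * L ^ 3)) * 2 * L ^ A =
        16 * P * X * X / L := by
      rw [show A + 8 = (A + 7) + 1 by ring, pow_succ, pow_add]
      field_simp
      ring
    rw [e1, div_le_iff₀ hL0]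
    calc 16 * (P : ℝ) * X * X ≤ 16 * (P : ℝ) * X * (16 * (W * P)) :=
          mul_le_mul_of_nonneg_left hX16 (by positivity)
      _ = 256 * ((P : ℝ) ^ 2 * W * X) := by ring
      _ ≤ (P : ℝ) ^ 2 * W * X * L := by
          rw [mul_comm]
          exact mul_le_mul_of_nonneg_left hL256 (by positivity)
  calc L ^ 4 * (W * (P * (X * L ^ 2)) + P * (8 * X * M * L ^ 3)) =
        L ^ 4 * (W * (P * (X * L ^ 2))) + L ^ 4 * (P * (8 * X * M * L ^ 3)) := by ring
    _ ≤ (P : ℝ) ^ 2 * W * X / L ^ A / 2 + (P : ℝ) ^ 2 * W * X / L ^ A / 2 := add_le_add t1 t2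
    _ = _ := by ring

end Pool.Agent.L7h50.TS
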