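import Pool.Agent.L7h50.TS.V1

set_option autoImplicit false

/-! Project TS: almost all `n` (`S_FIN1`). -/

namespace Pool.Agent.L7h50.TS
open Finset
open Pool.Agent.L7h88.TS

open Classical in
/-- from dyadic blocks to initial segments -/
theorem dyadic (Bd : ℕ → Prop) (A X₁ : ℕ)
    (h : ∀ X : ℕ, X₁ ≤ X → ((((Ioc (X / 2) X).filter Bd).card : ℕ) : ℝ) ≤
      X / Real.log X ^ (A + 1)) :
    ∃ X₀ : ℕ, ∀ X : ℕ, X₀ ≤ X → ((((Icc 1 X).filter Bd).card : ℕ) : ℝ) ≤ X / Real.log X ^ A := by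
  obtain ⟨n1, h1⟩ := Pool.Agent.H373R2.T7.ev_log' A 2
  obtain ⟨n2, h2⟩ := Pool.Agent.H373R2.T7.ev_L' (2 ^ (A + 3) + 4)
  refine ⟨max (max n1 n2) (X₁ ^ 2 + 4), fun X hX => ?_⟩
  have b1 : n1 ≤ X := ((le_max_left _ _).trans (le_max_left _ _)).trans hX
  have b2 : n2 ≤ X := ((le_max_right _ _).trans (le_max_left _ _)).trans hX
  have b3 : X₁ ^ 2 + 4 ≤ X := (le_max_right _ _).trans hX
  have c1 := h1 X b1
  have c2 := h2 X b2
  set L := Real.log X with hL
  have hpow : (0 : ℝ) < 2 ^ (A + 3) := by positivity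
  have hL0 : 0 < L := by linarith
  have hX0 : (0 : ℝ) < X := by exact_mod_cast (by omega : 0 < X)
  have hX1s : (X₁ : ℝ) ≤ √(X : ℝ) := by
    apply Real.le_sqrt_of_sq_le
    exact_mod_cast (by omega : X₁ ^ 2 ≤ X)
  have key : ∀ Y : ℕ, Y ≤ X → ((((Icc 1 Y).filter Bd).card : ℕ) : ℝ) ≤
      √(X : ℝ) + 2 * Y / (L / 2) ^ (A + 1) := by
    intro Y
    induction Y using Nat.strong_induction_on with
    | _ Y ih =>
      intro hYX
      by_cases hY : (Y : ℝ) ≤ √(X : ℝ)
      · have e1 : ((((Icc 1 Y).filter Bd).card : ℕ) : ℝ) ≤ Y := by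
          have : ((Icc 1 Y).filter Bd).card ≤ Y := (card_filter_le _ _).trans (by simp)
          exact_mod_cast this
        have e2 : 0 ≤ 2 * (Y : ℝ) / (L / 2) ^ (A + 1) := by positivity
        linarith
      · push Not at hY
        have hYX1 : X₁ ≤ Y := by exact_mod_cast (hX1s.trans hY.le)
        have hY0 : 0 < Y := by
          have : (0 : ℝ) < Y := lt_of_le_of_lt (Real.sqrt_nonneg _) hY
          exact_mod_cast this
        have e1 := ih (Y / 2) (by omega) (by omega)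
        have e2 := h Y hYX1
        have e3 : ((Icc 1 Y).filter Bd).card ≤ ((Icc 1 (Y / 2)).filter Bd).card +
            ((Ioc (Y / 2) Y).filter Bd).card := by
          refine le_trans (card_le_card ?_) (card_union_le _ _)
          rw [← filter_union]
          apply filter_subset_filter
          intro r hr
          rw [mem_Icc] at hr
          rw [mem_union, mem_Icc, mem_Ioc]
          omega
        have e4 : ((((Icc 1 Y).filter Bd).card : ℕ) : ℝ) ≤
            ((((Icc 1 (Y / 2)).filter Bd).card : ℕ) : ℝ) + ((((Ioc (Y / 2) Y).filter Bd).card : ℕ) : ℝ) := by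
          exact_mod_cast e3
        have e5 : L / 2 ≤ Real.log Y := by
          have := Real.log_le_log (Real.sqrt_pos.2 hX0) hY.le
          rw [Real.log_sqrt hX0.le] at this
          exact this
        have e6 : (Y : ℝ) / Real.log Y ^ (A + 1) ≤ Y / (L / 2) ^ (A + 1) := by
          apply div_le_div_of_nonneg_left (Nat.cast_nonneg _) (by positivity)
          exact pow_le_pow_left₀ (by linarith) e5 _
        have e7 : 2 * ((Y / 2 : ℕ) : ℝ) / (L / 2) ^ (A + 1) ≤ Y / (L / 2) ^ (A + 1) := by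
          apply div_le_div_of_nonneg_right _ (by positivity)
          have : 2 * (Y / 2) ≤ Y := by omega
          exact_mod_cast this
        have e8 : 2 * (Y : ℝ) / (L / 2) ^ (A + 1) = Y / (L / 2) ^ (A + 1) + Y / (L / 2) ^ (A + 1) := by
          ring
        linarith
  have e1 := key X le_rfl
  refine e1.trans ?_
  have e2 : √(X : ℝ) ≤ X / L ^ A / 2 := by
    rw [le_div_iff₀ (by norm_num), le_div_iff₀ (by positivity)]
    calc √(X : ℝ) * 2 * L ^ A = √(X : ℝ) * (2 * L ^ A) := by ring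
      _ ≤ √(X : ℝ) * √(X : ℝ) := mul_le_mul_of_nonneg_left c1 (Real.sqrt_nonneg _)
      _ = X := Real.mul_self_sqrt hX0.le
  have e3 : 2 * (X : ℝ) / (L / 2) ^ (A + 1) ≤ X / L ^ A / 2 := by
    rw [div_pow, div_div_eq_mul_div, div_le_iff₀ (by positivity)]
    have : (X : ℝ) / L ^ A / 2 * L ^ (A + 1) = X * L / 2 := by
      rw [pow_succ]; field_simp
    rw [this]
    have : 2 * (X : ℝ) * 2 ^ (A + 1) = X * 2 ^ (A + 3) / 2 := by ring
    rw [this]
    have : (X : ℝ) * 2 ^ (A + 3) ≤ X * L := mul_le_mul_of_nonneg_left (by linarith) hX0.le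
    linarith
  linarith

open Classical in
/-- the exceptional `w` -/
noncomputable def BW (X W P n : ℕ) : Finset ℕ := (Ioc (W / 2) W).filter (fun w : ℕ => Com n w ∧
  tri lp lp lp P n w < P / (2 * Real.log X))

open Classical in
/-- few `n` have many exceptional `w` -/
lemma few_n (X W P A₁ k : ℕ) (hW : 0 < W) (hL : 0 < Real.log X)
    (h : (((Ioc (X / 2) X ×ˢ Ioc (W / 2) W).filter (fun x : ℕ × ℕ => Com x.1 x.2 ∧
      tri lp lp lp P x.1 x.2 < P / (2 * Real.log X))).card : ℝ) ≤ X * W / Real.log X ^ (A₁ + k)) :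
    (((Ioc (X / 2) X).filter (fun n => (W : ℝ) / Real.log X ^ A₁ < ((BW X W P n).card : ℝ))).card : ℝ) ≤
      X / Real.log X ^ k := by
  have hWr : (0 : ℝ) < W := by exact_mod_cast hW
  set S := (Ioc (X / 2) X).filter (fun n => (W : ℝ) / Real.log X ^ A₁ < ((BW X W P n).card : ℝ)) with hS
  have e1 : (((Ioc (X / 2) X ×ˢ Ioc (W / 2) W).filter (fun x : ℕ × ℕ => Com x.1 x.2 ∧
      tri lp lp lp P x.1 x.2 < P / (2 * Real.log X))).card : ℝ) =
      ∑ n ∈ Ioc (X / 2) X, ((BW X W P n).card : ℝ) := by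
    rw [card_filter, sum_product]
    push_cast
    apply sum_congr rfl
    intro n _
    unfold BW
    rw [card_filter]
    push_cast
    rfl
  rw [e1] at h
  have e2 : (S.card : ℝ) * (W / Real.log X ^ A₁) ≤ ∑ n ∈ Ioc (X / 2) X, ((BW X W P n).card : ℝ) := by
    rw [← nsmul_eq_mul, ← sum_const]
    calc ∑ _n ∈ S, (W : ℝ) / Real.log X ^ A₁ ≤ ∑ n ∈ S, ((BW X W P n).card : ℝ) :=
          sum_le_sum fun n hn => (mem_filter.1 hn).2.le
      _ ≤ _ := sum_le_sum_of_subset_of_nonneg (filter_subset _ _) fun _ _ _ => Nat.cast_nonneg _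
  have e3 := e2.trans h
  have hp : 0 < Real.log X ^ A₁ := by positivity
  have hk : 0 < Real.log X ^ k := by positivity
  rw [pow_add] at e3
  rw [le_div_iff₀ hk]
  have e4 : (S.card : ℝ) * (W / Real.log X ^ A₁) * (Real.log X ^ A₁ * Real.log X ^ k) ≤
      X * W / (Real.log X ^ A₁ * Real.log X ^ k) * (Real.log X ^ A₁ * Real.log X ^ k) :=
    mul_le_mul_of_nonneg_right e3 (by positivity)
  rw [div_mul_cancel₀ _ (by positivity)] at e4
  have e5 : (S.card : ℝ) * (W / Real.log X ^ A₁) * (Real.log X ^ A₁ * Real.log X ^ k) =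
      (S.card : ℝ) * Real.log X ^ k * W := by
    field_simp
  rw [e5] at e4
  exact le_of_mul_le_mul_right e4 hWr

/-- the parameters of the ladder -/
lemma par_of (X W D : ℕ) (hX : 100 ≤ X) (hs : Nat.sqrt (X / 2) ≤ W)
    (hW : (W : ℝ) ≤ √(X : ℝ) * Real.log X ^ D) (h48 : 48 * Real.log X ^ D ≤ √(X : ℝ))
    (h10 : Real.log X ^ D ≤ (X : ℝ) ^ (1 / 10 : ℝ)) : Par X W (X / (12 * W)) := by
  have hX0 : (0 : ℝ) < X := by exact_mod_cast (by omega : 0 < X)
  have hs7 : 7 ≤ Nat.sqrt (X / 2) := by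
    rw [Nat.le_sqrt]
    omega
  have hW0 : 0 < W := by omega
  set P := X / (12 * W) with hP
  have h1 : 12 * W * P ≤ X := Nat.mul_div_le X (12 * W)
  have h2 : X < 12 * W * (P + 1) := Nat.lt_mul_div_succ X (by positivity)
  have hWX : 48 * W ≤ X := by
    have : 48 * (W : ℝ) ≤ X := by
      calc 48 * (W : ℝ) ≤ 48 * (√(X : ℝ) * Real.log X ^ D) := by linarith
        _ = √(X : ℝ) * (48 * Real.log X ^ D) := by ring
        _ ≤ √(X : ℝ) * √(X : ℝ) := mul_le_mul_of_nonneg_left h48 (Real.sqrt_nonneg _)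
        _ = X := Real.mul_self_sqrt hX0.le
    exact_mod_cast this
  refine ⟨?_, ?_, ?_, ?_⟩
  · nlinarith
  · nlinarith
  · have h3 : X / 2 < (Nat.sqrt (X / 2) + 1) * (Nat.sqrt (X / 2) + 1) := Nat.lt_succ_sqrt _
    set s := Nat.sqrt (X / 2) with hsd
    have h4 : X ≤ 3 * (s * s) := by
      have h5 : X ≤ 2 * ((s + 1) * (s + 1)) := by omega
      nlinarith
    have h5 : 12 * W * P ≤ 3 * (W * W) := h1.trans (h4.trans (by
      have := Nat.mul_le_mul hs hs
      omega))
    have h6 : 4 * P * (3 * W) ≤ W * (3 * W) := by nlinarith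
    exact Nat.le_of_mul_le_mul_right h6 (by positivity)
  · refine hW.trans ?_
    calc √(X : ℝ) * Real.log X ^ D ≤ √(X : ℝ) * (X : ℝ) ^ (1 / 10 : ℝ) :=
          mul_le_mul_of_nonneg_left h10 (Real.sqrt_nonneg _)
      _ = (X : ℝ) ^ (6 / 10 : ℝ) := by
          rw [Real.sqrt_eq_rpow, ← Real.rpow_add hX0]; norm_num
      _ ≤ (X : ℝ) ^ (9 / 10 : ℝ) := by
          apply Real.rpow_le_rpow_of_exponent_le _ (by norm_num)
          exact_mod_cast (by omega : 1 ≤ X)

open Classical in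
/-- an `n` which is good for all scales of the ladder is good -/
lemma good_of (hCNT : ∃ X₀ : ℕ, ∀ X W P n w q : ℕ, X₀ ≤ X → Par X W P → n ∈ Ioc (X / 2) X →
      w ∈ Ioc (W / 2) W → n + 1 = w + 2 * q → P / (2 * Real.log X) ≤ tri lp lp lp P n w →
      P / (2 * Real.log X ^ 4) ≤ ((Kq n q).card : ℝ)) (A D : ℕ) :
    ∃ X₀ : ℕ, ∀ X n : ℕ, X₀ ≤ X → n ∈ Ioc (X / 2) X → n % 2 = 1 →
      (∀ i ∈ range (⌊Real.log X⌋₊ + 1), Rg (D + 1) X (2 ^ i * Nat.sqrt (X / 2)) →
        ((BW X (2 ^ i * Nat.sqrt (X / 2)) (X / (12 * (2 ^ i * Nat.sqrt (X / 2)))) n).card : ℝ) ≤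
          ((2 ^ i * Nat.sqrt (X / 2) : ℕ) : ℝ) / Real.log X ^ (A + 2)) → Good A D n := by
  obtain ⟨n0, h0⟩ := hCNT
  obtain ⟨n1, h1⟩ := Pool.Agent.H373R2.T7.ev_log' (D + 1) 48
  obtain ⟨n2, h2⟩ := ev_pow (D + 1) 1
  obtain ⟨n3, h3⟩ := Pool.Agent.H373R2.T7.ev_L' 4096
  refine ⟨max (max n0 n1) (max n2 (max n3 100)), fun X n hX hn hodd hbad y hy1 hy2 => ?_⟩
  have b0 : n0 ≤ X := ((le_max_left _ _).trans (le_max_left _ _)).trans hX
  have b1 : n1 ≤ X := ((le_max_right _ _).trans (le_max_left _ _)).trans hX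
  have b2 : n2 ≤ X := ((le_max_left _ _).trans (le_max_right _ _)).trans hX
  have b3 : n3 ≤ X := (((le_max_left _ _).trans (le_max_right _ _)).trans (le_max_right _ _)).trans hX
  have b4 : 100 ≤ X := (((le_max_right _ _).trans (le_max_right _ _)).trans (le_max_right _ _)).trans hX
  have c1 := h1 X b1
  have c2 := h2 X b2
  have c3 := h3 X b3
  rw [one_mul] at c2
  set L := Real.log X with hL
  set s := Nat.sqrt (X / 2) with hs
  have hL0 : 0 < L := by linarith
  have hX0 : (0 : ℝ) < X := by exact_mod_cast (by omega : 0 < X)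
  rw [mem_Ioc] at hn
  have hs7 : 7 ≤ s := by
    rw [hs, Nat.le_sqrt]
    omega
  have hss : s * s ≤ X / 2 := Nat.sqrt_le _
  have hsn : (s : ℝ) ≤ √(n : ℝ) := by
    apply Real.le_sqrt_of_sq_le
    have : s * s ≤ n := by omega
    rw [sq]
    exact_mod_cast this
  have hnX : (n : ℝ) ≤ X := by exact_mod_cast hn.2
  have hsX : √(n : ℝ) ≤ √(X : ℝ) := Real.sqrt_le_sqrt hnX
  have hn0 : (0 : ℝ) < n := by exact_mod_cast (by omega : 0 < n)
  have hlogn : Real.log n ≤ L := Real.log_le_log hn0 hnX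
  have hlogn2 : L / 2 ≤ Real.log n := by
    have e1 : (X : ℝ) / 2 ≤ n := by
      have : X ≤ 2 * n := by omega
      have : (X : ℝ) ≤ 2 * n := by exact_mod_cast this
      linarith
    have e2 := Real.log_le_log (by linarith) e1
    rw [Real.log_div hX0.ne' (by norm_num)] at e2
    have e3 : Real.log 2 ≤ 1 := by
      have := Real.log_le_sub_one_of_pos (show (0 : ℝ) < 2 by norm_num)
      linarith
    linarith
  have hlogn0 : 0 < Real.log n := by linarith
  have hy0 : (0 : ℝ) < y := by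
    have : (7 : ℝ) ≤ s := by exact_mod_cast hs7
    linarith
  have hyX : 4 * (y : ℝ) ≤ √(X : ℝ) * L ^ (D + 1) := by
    calc 4 * (y : ℝ) ≤ 4 * (√(n : ℝ) * Real.log n ^ D) := by linarith
      _ ≤ L * (√(X : ℝ) * L ^ D) := by
          apply mul_le_mul (by linarith) _ (by positivity) hL0.le
          exact mul_le_mul hsX (pow_le_pow_left₀ hlogn0.le hlogn D) (by positivity)
            (Real.sqrt_nonneg _)
      _ = _ := by ring
  set K := ⌊L⌋₊ + 1 with hK
  set S := (Icc 1 n).filter (fun q : ℕ => q % 2 = 1 ∧ y + 2 * q < n + 1 ∧ n + 1 ≤ 2 * y + 2 * q ∧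
    Mod3 n q ∧ ((Kq n q).card : ℝ) < n / (y * Real.log n ^ 5)) with hS
  set J := (range K).filter (fun i => ((2 ^ i * s : ℕ) : ℝ) ≤ 4 * y) with hJ
  have hRg : ∀ i ∈ J, Rg (D + 1) X (2 ^ i * s) := by
    intro i hi
    exact (mem_filter.1 hi).2.trans hyX
  have hcover : ∀ q ∈ S, n + 1 - 2 * q ∈ J.biUnion fun i =>
      BW X (2 ^ i * s) (X / (12 * (2 ^ i * s))) n := by
    intro q hq
    rw [hS, mem_filter, mem_Icc] at hq
    obtain ⟨⟨hq1, hqn⟩, hq2, hq3, hq4, hq5, hq6⟩ := hq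
    set w := n + 1 - 2 * q with hw
    have hyw : y < w := by omega
    have hwy : w ≤ 2 * y := by omega
    have hwr1 : (y : ℝ) < w := by exact_mod_cast hyw
    have hwr2 : (w : ℝ) ≤ 2 * y := by exact_mod_cast hwy
    have hex : ∃ i : ℕ, w ≤ 2 ^ i * s := by
      refine ⟨w, ?_⟩
      have : w < 2 ^ w := Nat.lt_two_pow_self
      calc w ≤ 2 ^ w * 1 := by omega
        _ ≤ 2 ^ w * s := Nat.mul_le_mul_left _ (by omega)
    set i := Nat.find hex with hi
    have hi1 : w ≤ 2 ^ i * s := Nat.find_spec hex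
    have hi2 : 2 ^ i * s / 2 < w ∧ ((2 ^ i * s : ℕ) : ℝ) ≤ 4 * y := by
      rcases Nat.eq_zero_or_pos i with h | h
      · rw [h, pow_zero, one_mul]
        constructor
        · have : (s : ℝ) < 2 * w := by linarith
          have : s < 2 * w := by exact_mod_cast this
          omega
        · linarith
      · have h5 : ¬ w ≤ 2 ^ (i - 1) * s := Nat.find_min hex (by omega)
        have h6 : 2 ^ i * s = 2 * (2 ^ (i - 1) * s) := by
          obtain ⟨k, hk⟩ : ∃ k, i = k + 1 := ⟨i - 1, by omega⟩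
          rw [hk, Nat.add_sub_cancel, pow_succ]
          ring
        constructor
        · omega
        · have h7 : 2 ^ i * s ≤ 4 * y := by omega
          exact_mod_cast h7
    have hiK : i ∈ range K := by
      rw [mem_range, hK, Nat.lt_succ_iff, Nat.le_floor_iff hL0.le]
      by_contra hcon
      push Not at hcon
      have e1 : √(X : ℝ) ≤ (2 : ℝ) ^ i := by
        have e2 : √(X : ℝ) = Real.exp (L / 2) := by
          rw [Real.sqrt_eq_rpow, Real.rpow_def_of_pos hX0, hL]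
          ring_nf
        have e3 : (2 : ℝ) ^ i = Real.exp (i * Real.log 2) := by
          rw [mul_comm, Real.exp_mul, Real.exp_log (by norm_num), Real.rpow_natCast]
        rw [e2, e3]
        apply Real.exp_le_exp.2
        have e4 : 1 / 2 < Real.log 2 := by have := Real.log_two_gt_d9; linarith
        nlinarith
      have e2 : ((2 ^ i * s : ℕ) : ℝ) ≤ √(X : ℝ) * L ^ (D + 1) := hi2.2.trans hyX
      push_cast at e2
      have e3 : √(X : ℝ) ≤ 3 * s := by
        rw [Real.sqrt_le_left (by positivity)]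
        have h5 : X / 2 < (s + 1) * (s + 1) := Nat.lt_succ_sqrt _
        have h7 : X ≤ 2 * ((s + 1) * (s + 1)) := by omega
        have h8 : 7 * s ≤ s * s := Nat.mul_le_mul_right s hs7
        have h9 : (s + 1) * (s + 1) = s * s + 2 * s + 1 := by ring
        have h6 : X ≤ (3 * s) * (3 * s) := by
          have : (3 * s) * (3 * s) = 9 * (s * s) := by ring
          omega
        rw [sq]
        exact_mod_cast h6
      have hsq0 : 0 < √(X : ℝ) := Real.sqrt_pos.2 hX0
      have hs0 : (0 : ℝ) < s := by exact_mod_cast (by omega : 0 < s)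
      have e5 : √(X : ℝ) * √(X : ℝ) ≤ 3 * (√(X : ℝ) * L ^ (D + 1)) := by
        calc √(X : ℝ) * √(X : ℝ) ≤ 2 ^ i * (3 * s) := mul_le_mul e1 e3 hsq0.le (by positivity)
          _ = 3 * (2 ^ i * s) := by ring
          _ ≤ _ := by linarith
      have e6 : √(X : ℝ) * (3 * L ^ (D + 1)) < √(X : ℝ) * √(X : ℝ) := by
        apply mul_lt_mul_of_pos_left _ hsq0
        have : 0 < L ^ (D + 1) := by positivity
        linarith
      linarith
    have hiJ : i ∈ J := by
      rw [hJ, mem_filter]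
      exact ⟨hiK, hi2.2⟩
    rw [mem_biUnion]
    refine ⟨i, hiJ, ?_⟩
    unfold BW
    rw [mem_filter, mem_Ioc]
    have hCom : Com n w := by
      refine ⟨hodd, by omega, ?_⟩
      rcases hq5 with h | ⟨h, h'⟩ | ⟨h, h'⟩
      · exact Or.inl h
      · right; left; exact ⟨h, by omega⟩
      · right; right; exact ⟨h, by omega⟩
    refine ⟨⟨hi2.1, hi1⟩, hCom, ?_⟩
    by_contra hcon
    push Not at hcon
    have hPar : Par X (2 ^ i * s) (X / (12 * (2 ^ i * s))) :=
      par_of X (2 ^ i * s) (D + 1) b4 (Nat.le_mul_of_pos_left _ (by positivity)) (hRg i hiJ) c1 c2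
    have e1 := h0 X _ _ n w q b0 hPar (mem_Ioc.2 hn) (mem_Ioc.2 ⟨hi2.1, hi1⟩) (by omega) hcon
    set P := X / (12 * (2 ^ i * s)) with hP
    have e2 : (X : ℝ) ≤ 16 * (((2 ^ i * s : ℕ) : ℝ) * P) := by exact_mod_cast hPar.h16
    have e3 : (X : ℝ) ≤ 64 * y * P := by
      have : ((2 ^ i * s : ℕ) : ℝ) * P ≤ 4 * y * P :=
        mul_le_mul_of_nonneg_right hi2.2 (Nat.cast_nonneg _)
      linarith
    have e4 : (n : ℝ) / (y * Real.log n ^ 5) ≤ P / (2 * Real.log X ^ 4) := by
      rw [← hL, div_le_div_iff₀ (by positivity) (by positivity)]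
      have e5 : 128 * L ^ 4 ≤ Real.log n ^ 5 := by
        calc 128 * L ^ 4 ≤ L ^ 4 * (L / 32) := by
              have : 0 < L ^ 4 := by positivity
              nlinarith
          _ = (L / 2) ^ 5 := by ring
          _ ≤ Real.log n ^ 5 := pow_le_pow_left₀ (by positivity) hlogn2 5
      calc (n : ℝ) * (2 * L ^ 4) ≤ (64 * y * P) * (2 * L ^ 4) :=
            mul_le_mul_of_nonneg_right (hnX.trans e3) (by positivity)
        _ = P * (y * (128 * L ^ 4)) := by ring
        _ ≤ P * (y * Real.log n ^ 5) := by gcongr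
    linarith
  -- counting
  have hcard : S.card ≤ ∑ i ∈ J, (BW X (2 ^ i * s) (X / (12 * (2 ^ i * s))) n).card := by
    refine le_trans ?_ card_biUnion_le
    apply card_le_card_of_injOn (fun q => n + 1 - 2 * q)
    · intro q hq
      exact mem_coe.2 (hcover q (mem_coe.1 hq))
    · intro q hq q' hq' he
      have h5 := mem_filter.1 (mem_coe.1 hq)
      have h6 := mem_filter.1 (mem_coe.1 hq')
      simp only at he
      omega
  have hsum : ∑ i ∈ J, ((BW X (2 ^ i * s) (X / (12 * (2 ^ i * s))) n).card : ℝ) ≤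
      K * (4 * y / L ^ (A + 2)) := by
    have e1 : ∀ i ∈ J, ((BW X (2 ^ i * s) (X / (12 * (2 ^ i * s))) n).card : ℝ) ≤
        4 * y / L ^ (A + 2) := by
      intro i hi
      refine (hbad i (mem_filter.1 hi).1 (hRg i hi)).trans ?_
      exact div_le_div_of_nonneg_right (mem_filter.1 hi).2 (by positivity)
    refine (sum_le_sum e1).trans ?_
    rw [sum_const, nsmul_eq_mul]
    apply mul_le_mul_of_nonneg_right _ (by positivity)
    have : J.card ≤ K := (card_filter_le _ _).trans (by simp)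
    exact_mod_cast this
  have hKL : (K : ℝ) ≤ 2 * L := by
    rw [hK]
    push_cast
    have := Nat.floor_le hL0.le
    linarith
  calc (S.card : ℝ) ≤ ∑ i ∈ J, ((BW X (2 ^ i * s) (X / (12 * (2 ^ i * s))) n).card : ℝ) := by
        exact_mod_cast hcard
    _ ≤ K * (4 * y / L ^ (A + 2)) := hsum
    _ ≤ 2 * L * (4 * y / L ^ (A + 2)) := mul_le_mul_of_nonneg_right hKL (by positivity)
    _ = (8 / L) * (y / L ^ A) := by rw [pow_add]; field_simp; ring
    _ ≤ 1 * (y / L ^ A) := by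
        apply mul_le_mul_of_nonneg_right _ (by positivity)
        rw [div_le_one hL0]; linarith
    _ = y / L ^ A := one_mul _
    _ ≤ y / Real.log n ^ A := by
        apply div_le_div_of_nonneg_left hy0.le (by positivity)
        exact pow_le_pow_left₀ hlogn0.le hlogn A

open Classical in
/-- **FIN1** -/
theorem s_FIN1 (hTRI : ∀ D, S_TRI (Rg D)) (hCNT : S_CNT) : S_FIN1 := by
  intro A D
  obtain ⟨m1, h1⟩ := good_of hCNT A D
  obtain ⟨m2, h2⟩ := hTRI (D + 1) ((A + 2) + (A + 3))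
  obtain ⟨m3, h3⟩ := Pool.Agent.H373R2.T7.ev_L' 4
  obtain ⟨m4, h4⟩ := Pool.Agent.H373R2.T7.ev_log' (D + 1) 48
  obtain ⟨m5, h5⟩ := ev_pow (D + 1) 1
  suffices blk : ∀ X : ℕ, max (max m1 m2) (max m3 (max m4 (max m5 100))) ≤ X →
      (((Ioc (X / 2) X).filter (fun n => n % 2 = 1 ∧ ¬ Good A D n)).card : ℝ) ≤
        X / Real.log X ^ (A + 1) by
    obtain ⟨X₀, h⟩ := dyadic (fun n => n % 2 = 1 ∧ ¬ Good A D n) A
      (max (max m1 m2) (max m3 (max m4 (max m5 100)))) (fun X hX => by convert blk X hX)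
    exact ⟨X₀, fun X hX => by convert h X hX⟩
  intro X hX
  have b1 : m1 ≤ X := ((le_max_left _ _).trans (le_max_left _ _)).trans hX
  have b2 : m2 ≤ X := ((le_max_right _ _).trans (le_max_left _ _)).trans hX
  have b3 : m3 ≤ X := ((le_max_left _ _).trans (le_max_right _ _)).trans hX
  have b4 : m4 ≤ X := (((le_max_left _ _).trans (le_max_right _ _)).trans (le_max_right _ _)).trans hX
  have b5 : m5 ≤ X := ((((le_max_left _ _).trans (le_max_right _ _)).trans (le_max_right _ _)).trans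
    (le_max_right _ _)).trans hX
  have b6 : 100 ≤ X := ((((le_max_right _ _).trans (le_max_right _ _)).trans (le_max_right _ _)).trans
    (le_max_right _ _)).trans hX
  have c3 := h3 X b3
  have c4 := h4 X b4
  have c5 := h5 X b5
  rw [one_mul] at c5
  set L := Real.log X with hL
  have hL0 : 0 < L := by linarith
  set s := Nat.sqrt (X / 2) with hs
  have hs7 : 7 ≤ s := by
    rw [hs, Nat.le_sqrt]
    omega
  set K := ⌊L⌋₊ + 1 with hK
  let Bs : ℕ → Finset ℕ := fun i => (Ioc (X / 2) X).filter (fun n =>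
    ((2 ^ i * s : ℕ) : ℝ) / Real.log X ^ (A + 2) <
      ((BW X (2 ^ i * s) (X / (12 * (2 ^ i * s))) n).card : ℝ))
  set J := (range K).filter (fun i => Rg (D + 1) X (2 ^ i * s)) with hJ
  have hsub : (Ioc (X / 2) X).filter (fun n => n % 2 = 1 ∧ ¬ Good A D n) ⊆ J.biUnion Bs := by
    intro n hn
    rw [mem_filter] at hn
    obtain ⟨hn1, hn2, hn3⟩ := hn
    by_contra hcon
    apply hn3
    refine h1 X n b1 hn1 hn2 fun i hi hR => ?_
    by_contra hc
    push Not at hc
    apply hcon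
    rw [mem_biUnion]
    exact ⟨i, mem_filter.2 ⟨hi, hR⟩, mem_filter.2 ⟨hn1, hc⟩⟩
  have hBs : ∀ i ∈ J, ((Bs i).card : ℝ) ≤ X / L ^ (A + 3) := by
    intro i hi
    have hR := (mem_filter.1 hi).2
    have hPar : Par X (2 ^ i * s) (X / (12 * (2 ^ i * s))) :=
      par_of X (2 ^ i * s) (D + 1) b6 (Nat.le_mul_of_pos_left _ (by positivity)) hR c4 c5
    exact few_n X (2 ^ i * s) _ (A + 2) (A + 3) (by positivity) hL0 (h2 X _ _ b2 hPar hR)
  have hKL : (K : ℝ) ≤ 2 * L := by
    rw [hK]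
    push_cast
    have := Nat.floor_le hL0.le
    linarith
  have e1 : (((Ioc (X / 2) X).filter (fun n => n % 2 = 1 ∧ ¬ Good A D n)).card : ℝ) ≤
      ∑ i ∈ J, ((Bs i).card : ℝ) := by
    exact_mod_cast (card_le_card hsub).trans card_biUnion_le
  refine e1.trans ((sum_le_sum hBs).trans ?_)
  rw [sum_const, nsmul_eq_mul]
  have e2 : (J.card : ℝ) ≤ K := by
    have : J.card ≤ K := (card_filter_le _ _).trans (by simp)
    exact_mod_cast this
  calc (J.card : ℝ) * (X / L ^ (A + 3)) ≤ (2 * L) * (X / L ^ (A + 3)) :=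
        mul_le_mul_of_nonneg_right (e2.trans hKL) (by positivity)
    _ = (2 / L) * (X / L ^ (A + 1)) := by
        rw [show A + 3 = (A + 1) + 2 by ring, pow_add _ (A + 1) 2]; field_simp
    _ ≤ 1 * (X / L ^ (A + 1)) := by
        apply mul_le_mul_of_nonneg_right _ (by positivity)
        rw [div_le_one hL0]; linarith
    _ = _ := one_mul _

end Pool.Agent.L7h50.TS
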