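import Pool.Agent.L7h50.TS.Prw

set_option autoImplicit false

/-! Project TS: many `k` with a prime `q(n,k)` for which the shifted prime gaps have few divisors (`S_FIN2`). -/

namespace Pool.Agent.L7h50.TS
open Finset Filter
open Pool.Agent.L7h88.TS
open Pool.Agent.Y886.PP

theorem BQ_gen : ∀ᶠ X : ℕ in atTop, ∀ T : ℝ, 0 < T →
    ((BQ X T).card : ℝ) ≤ 12 * X * Real.log X ^ 3 / T := by
  have tN : Tendsto (fun N : ℕ => (N : ℝ)) atTop atTop := tendsto_natCast_atTop_atTop
  have tL : Tendsto (fun N : ℕ => Real.log (N : ℝ)) atTop atTop := Real.tendsto_log_atTop.comp tN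
  obtain ⟨N0, hN0⟩ := eventually_atTop.1 pi_lower
  filter_upwards [tL.eventually_ge_atTop 20, eventually_ge_atTop (N0 + 2)] with X hL hX
  intro T hT
  obtain ⟨L, hLd⟩ : ∃ L, L = Real.log (X : ℝ) := ⟨_, rfl⟩
  rw [← hLd] at hL ⊢
  have hX0 : (1 : ℝ) ≤ X := by exact_mod_cast (by omega : 1 ≤ X)
  obtain ⟨Y, hY⟩ : ∃ Y : ℕ, Y = ⌈X * L ^ 2⌉₊ := ⟨_, rfl⟩
  have hY1 : (X : ℝ) * L ^ 2 ≤ Y := by rw [hY]; exact Nat.le_ceil _
  have hY2 : (Y : ℝ) ≤ 2 * X * L ^ 2 := by
    have h1 : (Y : ℝ) < X * L ^ 2 + 1 := by rw [hY]; exact Nat.ceil_lt_add_one (by positivity)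
    have h2 : (1 : ℝ) ≤ X * L ^ 2 := by nlinarith
    linarith
  have hL2 : (1 : ℝ) ≤ L ^ 2 := one_le_pow₀ (by linarith)
  have hXYr : (X : ℝ) ≤ Y := (le_mul_of_one_le_right (by linarith) hL2).trans hY1
  have hYX : X ≤ Y := by exact_mod_cast hXYr
  have hYr : (1 : ℝ) ≤ Y := by linarith
  have hlY : Real.log Y ≤ 2 * L := by
    have h1 : (Y : ℝ) ≤ X * X := by
      have h2 : 2 * L ^ 2 ≤ X := by
        have h3 : Real.exp L = X := by rw [hLd, Real.exp_log (by linarith)]
        have h4 := Real.pow_div_factorial_le_exp L (by linarith) 3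
        rw [h3] at h4
        have h5 : (Nat.factorial 3 : ℝ) = 6 := by norm_num [Nat.factorial]
        rw [h5, div_le_iff₀ (by norm_num)] at h4
        nlinarith [sq_nonneg L]
      calc (Y : ℝ) ≤ 2 * X * L ^ 2 := hY2
        _ = X * (2 * L ^ 2) := by ring
        _ ≤ X * X := by gcongr
    have h2 := Real.log_le_log (by linarith) h1
    rw [Real.log_mul (by linarith) (by linarith), ← hLd] at h2
    linarith
  have hlY0 : L ≤ Real.log Y := by
    rw [hLd]
    apply Real.log_le_log (by linarith)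
    exact_mod_cast hYX
  have hpi := hN0 Y (by omega)
  have hXpi : X ≤ Nat.primeCounting Y := by
    have h1 : (X : ℝ) ≤ Nat.primeCounting Y := by
      refine le_trans ?_ hpi
      rw [le_div_iff₀ (by linarith)]
      calc (X : ℝ) * (2 * Real.log Y) ≤ X * (2 * (2 * L)) := by gcongr
        _ ≤ X * L ^ 2 := by
            apply mul_le_mul_of_nonneg_left _ (by linarith)
            nlinarith
        _ ≤ Y := hY1
    exact_mod_cast h1
  have h1 := BQ_le X Y T hT (by omega) hXpi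
  refine h1.trans ?_
  have h2 : (Y : ℝ) * (1 + Real.log Y) ≤ 2 * X * L ^ 2 * (3 * L) := by
    apply mul_le_mul hY2 (by linarith) (by linarith) (by positivity)
  calc 2 * ((Y : ℝ) * (1 + Real.log Y) / T) ≤ 2 * (2 * X * L ^ 2 * (3 * L) / T) := by gcongr
    _ = 12 * X * L ^ 3 / T := by
        ring

open Classical in
/-- the exceptional primes near `n/2` -/
noncomputable def FB (n : ℕ) (T : ℝ) : Finset ℕ := (Icc 1 n).filter (fun q : ℕ => q.Prime ∧ ¬ Few T q ∧
  Nat.sqrt n + 2 * q < n + 1 ∧ n + 1 ≤ 2 * Nat.sqrt n + 2 * q)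

lemma FB_sum (X : ℕ) (T : ℝ) :
    ∑ n ∈ Ioc (X / 2) X, (FB n T).card ≤ (BQ X T).card * (2 * Nat.sqrt X) := by
  classical
  have h1 : ∀ n ∈ Ioc (X / 2) X, (FB n T).card = ∑ q ∈ BQ X T, (if q ∈ FB n T then 1 else 0) := by
    intro n hn
    rw [← card_filter]
    congr 1
    ext q
    rw [mem_filter]
    constructor
    · intro hq
      refine ⟨?_, hq⟩
      unfold FB at hq
      unfold BQ
      rw [mem_filter, mem_Icc] at hq ⊢
      rw [mem_Ioc] at hn
      exact ⟨⟨hq.2.1.two_le, by omega⟩, hq.2.2.1⟩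
    · exact fun h => h.2
  rw [sum_congr rfl h1, sum_comm, ← smul_eq_mul]
  apply sum_le_card_nsmul
  intro q hq
  rw [← card_filter]
  have h2 : (Ioc (X / 2) X).filter (fun n => q ∈ FB n T) ⊆ Ico (2 * q) (2 * q + 2 * Nat.sqrt X) := by
    intro n hn
    rw [mem_filter, mem_Ioc] at hn
    obtain ⟨⟨_, hnX⟩, hn2⟩ := hn
    unfold FB at hn2
    rw [mem_filter, mem_Icc] at hn2
    have h3 : Nat.sqrt n ≤ Nat.sqrt X := Nat.sqrt_le_sqrt hnX
    rw [mem_Ico]
    omega
  calc _ ≤ (Ico (2 * q) (2 * q + 2 * Nat.sqrt X)).card := card_le_card h2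
    _ = _ := by simp

lemma Few_mono {T T' : ℝ} (h : T ≤ T') {q : ℕ} (hq : Few T q) : Few T' q :=
  ⟨hq.1.trans h, hq.2.trans h⟩

/-- the main count for one `n` -/
lemma KF_ge {c T : ℝ} {A n : ℕ} (hc : 0 < c) (hn : 2 ≤ n) (hA : 2 ≤ A) (hlog : 4 / c + 4 ≤ Real.log n)
    (hG : Good A 1 n) (hP : c * √(n : ℝ) / Real.log n ≤ ((PR n).card : ℝ))
    (hF : ((FB n T).card : ℝ) ≤ c / 4 * √(n : ℝ) / Real.log n) (hT : 0 < T) :
    (n : ℝ) / Real.log n ^ 7 ≤ ((KF n T).card : ℝ) := by
  classical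
  obtain ⟨L, hLd⟩ : ∃ L, L = Real.log (n : ℝ) := ⟨_, rfl⟩
  obtain ⟨y, hy⟩ : ∃ y, y = Nat.sqrt n := ⟨_, rfl⟩
  have hn0 : (2 : ℝ) ≤ n := by exact_mod_cast hn
  have hyle : (y : ℝ) ≤ √(n : ℝ) := by
    rw [hy]; exact Real.nat_sqrt_le_real_sqrt
  have hylt : √(n : ℝ) < (y : ℝ) + 1 := by
    rw [hy]
    exact Real.real_sqrt_lt_nat_sqrt_succ
  have hs1 : 1 ≤ √(n : ℝ) := by
    rw [Real.one_le_sqrt]; linarith
  have hy1 : 1 ≤ y := by
    rw [hy]
    exact Nat.sqrt_pos.2 (by omega)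
  have hy1r : (1 : ℝ) ≤ y := by exact_mod_cast hy1
  rw [← hLd] at hlog hP hF ⊢
  have h4c : 0 < 4 / c := by positivity
  have hL4 : 4 ≤ L := by linarith
  have hL0 : 0 < L := by linarith
  have hlo : √(n : ℝ) / 2 ≤ y := by linarith
  have hhi : (y : ℝ) ≤ √(n : ℝ) * Real.log n ^ 1 := by
    rw [← hLd, pow_one]
    nlinarith
  have g := hG y hlo hhi
  rw [← hLd] at g
  set Bs := (Icc 1 n).filter (fun q : ℕ => q % 2 = 1 ∧ y + 2 * q < n + 1 ∧ n + 1 ≤ 2 * y + 2 * q ∧ Mod3 n q ∧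
    ((Kq n q).card : ℝ) < n / (y * L ^ 5)) with hBs
  have g2 : (Bs.card : ℝ) ≤ √(n : ℝ) / L ^ 2 := by
    have g3 : (Bs.card : ℝ) ≤ y / L ^ A := by convert g
    refine g3.trans ?_
    apply div_le_div₀ (by positivity) hyle (by positivity)
    exact pow_le_pow_right₀ (by linarith) hA
  -- the good primes
  set S := (PR n \ FB n T) \ Bs with hS
  have hcard : (PR n).card ≤ S.card + (FB n T).card + Bs.card := by
    have e1 : (PR n).card ≤ (PR n \ FB n T).card + (FB n T).card := by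
      have := card_le_card_sdiff_add_card (s := PR n) (t := FB n T)
      omega
    have e2 : (PR n \ FB n T).card ≤ S.card + Bs.card := by
      have := card_le_card_sdiff_add_card (s := PR n \ FB n T) (t := Bs)
      omega
    omega
  have hcardr : ((PR n).card : ℝ) ≤ S.card + (FB n T).card + Bs.card := by exact_mod_cast hcard
  have hSc : c / 2 * √(n : ℝ) / L ≤ (S.card : ℝ) := by
    have e1 : √(n : ℝ) / L ^ 2 ≤ c / 4 * √(n : ℝ) / L := by
      rw [div_le_div_iff₀ (by positivity) (by positivity)]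
      have e2 : 1 ≤ c / 4 * L := by
        have : c / 4 * (4 / c) = 1 := by field_simp
        nlinarith
      nlinarith [mul_pos (by positivity : 0 < √(n : ℝ)) hL0]
    have e3 : c * √(n : ℝ) / L = c / 2 * √(n : ℝ) / L + c / 4 * √(n : ℝ) / L + c / 4 * √(n : ℝ) / L := by ring
    linarith
  have hmem : ∀ q ∈ S, q.Prime ∧ Few T q ∧ (n : ℝ) / (y * L ^ 5) ≤ ((Kq n q).card : ℝ) := by
    intro q hq
    rw [hS, Finset.mem_sdiff, Finset.mem_sdiff] at hq
    obtain ⟨⟨h1, h2⟩, h3⟩ := hq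
    unfold PR at h1
    rw [mem_filter] at h1
    obtain ⟨hI, hqp, hq3, h5, h6⟩ := h1
    have hfew : Few T q := by
      by_contra hno
      exact h2 (mem_filter.2 ⟨hI, hqp, hno, h5, h6⟩)
    refine ⟨hqp, hfew, ?_⟩
    by_contra hno
    rw [not_le] at hno
    apply h3
    rw [hBs, mem_filter]
    refine ⟨hI, ?_, by rw [hy]; exact h5, by rw [hy]; exact h6, ?_, hno⟩
    · rcases hqp.eq_two_or_odd with h | h
      · rw [h] at hq3
        omega
      · exact h
    · unfold Mod3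
      omega
  have hsub : S.biUnion (fun q => Kq n q) ⊆ KF n T := by
    intro k hk
    rw [mem_biUnion] at hk
    obtain ⟨q, hq, hk⟩ := hk
    obtain ⟨h1, h2, _⟩ := hmem q hq
    unfold Kq at hk
    unfold KF
    rw [mem_filter] at hk ⊢
    rw [hk.2]
    exact ⟨hk.1, h1, h2⟩
  have hdis : ∀ q ∈ S, ∀ q' ∈ S, q ≠ q' → Disjoint (Kq n q) (Kq n q') := by
    intro q _ q' _ hne
    rw [disjoint_left]
    intro k h1 h2
    unfold Kq at h1 h2
    rw [mem_filter] at h1 h2
    exact hne (h1.2.symm.trans h2.2)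
  have hcard2 : ∑ q ∈ S, (Kq n q).card ≤ (KF n T).card := by
    rw [← card_biUnion hdis]
    exact card_le_card hsub
  have hcard3 : (∑ q ∈ S, ((Kq n q).card : ℝ)) ≤ ((KF n T).card : ℝ) := by exact_mod_cast hcard2
  refine le_trans ?_ hcard3
  have h7 : (S.card : ℝ) * (n / (y * L ^ 5)) ≤ ∑ q ∈ S, ((Kq n q).card : ℝ) := by
    rw [← nsmul_eq_mul]
    exact card_nsmul_le_sum _ _ _ (fun q hq => (hmem q hq).2.2)
  refine le_trans ?_ h7
  have h8 : √(n : ℝ) / L ^ 5 ≤ n / (y * L ^ 5) := by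
    rw [div_le_div_iff₀ (by positivity) (by positivity)]
    have e1 : √(n : ℝ) * √(n : ℝ) = n := Real.mul_self_sqrt (by linarith)
    calc √(n : ℝ) * (y * L ^ 5) ≤ √(n : ℝ) * (√(n : ℝ) * L ^ 5) := by gcongr
      _ = (√(n : ℝ) * √(n : ℝ)) * L ^ 5 := by ring
      _ = n * L ^ 5 := by rw [e1]
  calc (n : ℝ) / L ^ 7 ≤ c / 2 * n / L ^ 6 := by
        rw [div_le_div_iff₀ (by positivity) (by positivity)]
        have e2 : 1 ≤ c / 2 * L := by
          have : c / 4 * (4 / c) = 1 := by field_simp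
          nlinarith
        calc (n : ℝ) * L ^ 6 = 1 * (n * L ^ 6) := by ring
          _ ≤ c / 2 * L * (n * L ^ 6) := by gcongr
          _ = c / 2 * n * L ^ 7 := by ring
    _ = (c / 2 * √(n : ℝ) / L) * (√(n : ℝ) / L ^ 5) := by
        have e1 : √(n : ℝ) * √(n : ℝ) = n := Real.mul_self_sqrt (by linarith)
        have : (c / 2 * √(n : ℝ) / L) * (√(n : ℝ) / L ^ 5) = c / 2 * (√(n : ℝ) * √(n : ℝ)) / L ^ 6 := by
          field_simp
        rw [this, e1]
    _ ≤ (S.card : ℝ) * (n / (y * L ^ 5)) := by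
        apply mul_le_mul hSc h8 (by positivity) (by positivity)

lemma KF_mono {n : ℕ} {T T' : ℝ} (h : T ≤ T') : (KF n T).card ≤ (KF n T').card := by
  classical
  apply card_le_card
  intro k hk
  unfold KF at hk ⊢
  rw [mem_filter] at hk ⊢
  exact ⟨hk.1, hk.2.1, Few_mono h hk.2.2⟩

open Classical in
/-- **FIN2** -/
theorem s_FIN2 (hFIN : S_FIN1) (hPRW : S_PRW) : S_FIN2 := by
  intro A
  obtain ⟨c, hc, hPRW⟩ := hPRW
  obtain ⟨m1, h1⟩ := hFIN (A + 2) 1
  obtain ⟨m2, h2⟩ := hPRW (A + 2)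
  obtain ⟨m3, h3⟩ := eventually_atTop.1 BQ_gen
  obtain ⟨m4, h4⟩ := Pool.Agent.H373R2.T7.ev_L' (2 * (4 / c + 4) + 2 + 192 * 2 ^ (A + 7) / c)
  refine ⟨A + 7, ?_⟩
  have blk : ∀ X : ℕ, max (max m1 m2) (max m3 (max m4 100)) ≤ X →
      (((Ioc (X / 2) X).filter (fun n : ℕ => n % 2 = 1 ∧
        ((KF n (Real.log n ^ (A + 7))).card : ℝ) < n / Real.log n ^ 7)).card : ℝ) ≤
        X / Real.log X ^ (A + 1) := by
    intro X hX
    have b1 : m1 ≤ X := ((le_max_left _ _).trans (le_max_left _ _)).trans hX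
    have b2 : m2 ≤ X := ((le_max_right _ _).trans (le_max_left _ _)).trans hX
    have b34 := (le_max_right (max m1 m2) (max m3 (max m4 100))).trans hX
    have b3 : m3 ≤ X := (le_max_left _ _).trans b34
    have b45 := (le_max_right m3 (max m4 100)).trans b34
    have b4 : m4 ≤ X := (le_max_left _ _).trans b45
    have b5 : 100 ≤ X := (le_max_right _ _).trans b45
    have c1 := h1 X b1
    have c2 := h2 X b2
    have c3 := h3 X b3
    have c4 := h4 X b4
    obtain ⟨L, hLd⟩ : ∃ L, L = Real.log (X : ℝ) := ⟨_, rfl⟩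
    rw [← hLd] at c1 c2 c3 c4 ⊢
    have hX0 : (100 : ℝ) ≤ X := by exact_mod_cast b5
    have h4c : 0 < 4 / c := by positivity
    have hp : 0 < 192 * 2 ^ (A + 7) / c := by positivity
    have hL8 : 8 ≤ L := by linarith
    have hL0 : 0 < L := by linarith
    set T := (L / 2) ^ (A + 7) with hT
    have hT0 : 0 < T := by positivity
    -- logs of `n`
    have hlog : ∀ n ∈ Ioc (X / 2) X, L / 2 ≤ Real.log n ∧ 4 / c + 4 ≤ Real.log n ∧ Real.log n ≤ L ∧ 2 ≤ n ∧
        (X : ℝ) / 2 ≤ n := by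
      intro n hn
      rw [mem_Ioc] at hn
      have e1 : (X : ℝ) / 2 ≤ n := by
        have : X ≤ 2 * n := by omega
        have : (X : ℝ) ≤ 2 * n := by exact_mod_cast this
        linarith
      have e2 : Real.log ((X : ℝ) / 2) ≤ Real.log n := Real.log_le_log (by linarith) e1
      rw [Real.log_div (by linarith) (by norm_num), ← hLd] at e2
      have e3 : Real.log 2 ≤ 1 := by
        have := Real.log_two_lt_d9
        linarith
      have e4 : Real.log n ≤ L := by
        rw [hLd]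
        apply Real.log_le_log (by linarith)
        exact_mod_cast hn.2
      exact ⟨by linarith, by linarith, e4, by omega, e1⟩
    -- the third exceptional set
    set E3 := (Ioc (X / 2) X).filter (fun n : ℕ => c / 4 * √(n : ℝ) / Real.log n < ((FB n T).card : ℝ)) with hE3
    have hE3c : (E3.card : ℝ) ≤ X / L ^ (A + 2) := by
      have e1 : (E3.card : ℝ) * (c / 4 * (√(X : ℝ) / 2) / L) ≤ (BQ X T).card * (2 * √(X : ℝ)) := by
        have f1 : (E3.card : ℝ) * (c / 4 * (√(X : ℝ) / 2) / L) ≤ ∑ n ∈ E3, ((FB n T).card : ℝ) := by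
          rw [← nsmul_eq_mul]
          apply card_nsmul_le_sum
          intro n hn
          rw [hE3, mem_filter] at hn
          obtain ⟨g1, g2, g3, g4, g5⟩ := hlog n hn.1
          refine le_trans ?_ hn.2.le
          apply div_le_div₀ (by positivity) _ (by linarith) g3
          apply mul_le_mul_of_nonneg_left _ (by positivity)
          rw [show √(X : ℝ) / 2 = √((X : ℝ) / 4) by
            rw [Real.sqrt_div (by linarith), show (4 : ℝ) = 2 ^ 2 by norm_num, Real.sqrt_sq (by norm_num)]]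
          apply Real.sqrt_le_sqrt
          linarith
        have f2 : ∑ n ∈ E3, ((FB n T).card : ℝ) ≤ ∑ n ∈ Ioc (X / 2) X, ((FB n T).card : ℝ) := by
          apply sum_le_sum_of_subset_of_nonneg (filter_subset _ _)
          intro _ _ _
          positivity
        have f3 : ∑ n ∈ Ioc (X / 2) X, ((FB n T).card : ℝ) ≤ (BQ X T).card * (2 * (Nat.sqrt X : ℝ)) := by
          exact_mod_cast FB_sum X T
        have f4 : (Nat.sqrt X : ℝ) ≤ √(X : ℝ) := Real.nat_sqrt_le_real_sqrt
        calc _ ≤ _ := f1.trans (f2.trans f3)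
          _ ≤ _ := by gcongr
      have e2 := c3 T hT0
      have hs0 : 0 < √(X : ℝ) := Real.sqrt_pos.2 (by linarith)
      have e3 : (E3.card : ℝ) ≤ 16 * L / c * (BQ X T).card := by
        have f1 : (E3.card : ℝ) * (c / (8 * L)) * √(X : ℝ) ≤ 2 * (BQ X T).card * √(X : ℝ) := by
          calc (E3.card : ℝ) * (c / (8 * L)) * √(X : ℝ) = (E3.card : ℝ) * (c / 4 * (√(X : ℝ) / 2) / L) := by
                field_simp
                ring
            _ ≤ (BQ X T).card * (2 * √(X : ℝ)) := e1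
            _ = _ := by ring
        have f2 := le_of_mul_le_mul_right f1 hs0
        calc (E3.card : ℝ) = (E3.card : ℝ) * (c / (8 * L)) * (8 * L / c) := by field_simp
          _ ≤ 2 * (BQ X T).card * (8 * L / c) := by gcongr
          _ = _ := by ring
      calc (E3.card : ℝ) ≤ 16 * L / c * (BQ X T).card := e3
        _ ≤ 16 * L / c * (12 * X * L ^ 3 / T) := by gcongr
        _ = 192 * 2 ^ (A + 7) / c * (X / L ^ (A + 3)) := by
            rw [hT, div_pow]
            field_simp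
            ring
        _ ≤ X / L ^ (A + 2) := by
            rw [pow_succ L (A + 2), ← div_div, mul_div_assoc', div_le_iff₀ hL0, mul_comm]
            have f1 : 192 * 2 ^ (A + 7) / c ≤ L := by
              linarith
            gcongr
    have hsub : (Ioc (X / 2) X).filter (fun n : ℕ => n % 2 = 1 ∧
        ((KF n (Real.log n ^ (A + 7))).card : ℝ) < n / Real.log n ^ 7) ⊆
        ((Icc 1 X).filter (fun n : ℕ => n % 2 = 1 ∧ ¬ Good (A + 2) 1 n) ∪
        (Icc 1 X).filter (fun n : ℕ => (((Icc 1 n).filter (fun q : ℕ => q.Prime ∧ q % 3 = 1 ∧ Nat.sqrt n + 2 * q < n + 1 ∧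
    n + 1 ≤ 2 * Nat.sqrt n + 2 * q)).card : ℝ) < c * √(n : ℝ) / Real.log n)) ∪ E3 := by
      intro n hn
      rw [mem_filter] at hn
      obtain ⟨hnI, hodd, hK⟩ := hn
      obtain ⟨g1, g2, g3, g4, g5⟩ := hlog n hnI
      have hnI' : n ∈ Icc 1 X := by
        rw [mem_Ioc] at hnI
        rw [mem_Icc]
        omega
      rw [mem_union, mem_union]
      by_contra hno
      push Not at hno
      obtain ⟨⟨n1, n2⟩, n3⟩ := hno
      have k1 : Good (A + 2) 1 n := by
        by_contra hg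
        exact n1 (mem_filter.2 ⟨hnI', hodd, hg⟩)
      have k2 : c * √(n : ℝ) / Real.log n ≤ ((PR n).card : ℝ) := by
        by_contra hg
        rw [not_le] at hg
        exact n2 (mem_filter.2 ⟨hnI', hg⟩)
      have k3 : ((FB n T).card : ℝ) ≤ c / 4 * √(n : ℝ) / Real.log n := by
        by_contra hg
        rw [not_le] at hg
        exact n3 (mem_filter.2 ⟨hnI, hg⟩)
      have k4 := KF_ge hc g4 (by omega) g2 k1 k2 k3 hT0
      have k5 : (KF n T).card ≤ (KF n (Real.log n ^ (A + 7))).card := by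
        apply KF_mono
        exact pow_le_pow_left₀ (by positivity) g1 _
      have k6 : ((KF n T).card : ℝ) ≤ (KF n (Real.log n ^ (A + 7))).card := by exact_mod_cast k5
      linarith
    have hcard := (card_le_card hsub).trans ((card_union_le _ _).trans (Nat.add_le_add_right (card_union_le _ _) _))
    have hcardr := (Nat.cast_le (α := ℝ)).2 hcard
    push_cast at hcardr
    have hfin : (X : ℝ) / L ^ (A + 2) + X / L ^ (A + 2) + X / L ^ (A + 2) ≤ X / L ^ (A + 1) := by
      have : (X : ℝ) / L ^ (A + 2) + X / L ^ (A + 2) + X / L ^ (A + 2) = 3 * X / L ^ (A + 2) := by ring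
      rw [this, div_le_div_iff₀ (by positivity) (by positivity), pow_succ L (A + 1)]
      have e2 : (3 : ℝ) * X ≤ X * L := by nlinarith
      calc (3 : ℝ) * X * L ^ (A + 1) ≤ X * L * L ^ (A + 1) :=
            mul_le_mul_of_nonneg_right e2 (by positivity)
        _ = _ := by ring
    refine le_trans ?_ hfin
    refine le_trans hcardr ?_
    gcongr
  obtain ⟨X₀, h⟩ := dyadic (fun n : ℕ => n % 2 = 1 ∧
        ((KF n (Real.log n ^ (A + 7))).card : ℝ) < n / Real.log n ^ 7) A
    (max (max m1 m2) (max m3 (max m4 100))) (fun X hX => by convert blk X hX)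
  exact ⟨X₀, fun X hX => by convert h X hX⟩

end Pool.Agent.L7h50.TS
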