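import Pool.Agent.L7h50.TS.V1
import Pool.Agent.H373R2.T7.SysMain2
import Pool.Agent.H373R2.T7.Fund

set_option autoImplicit false

/-! Project TS: the main term (`S_LOW`). -/

namespace Pool.Agent.L7h50.TS
open Finset
open Pool.Agent.H373R2.T7 (lamz Vz pz rhoA PerA)
open Pool.Agent.L7h88.TS

/-- the conditions -/
def Ql (w n : ℤ) (l r : ℕ) : Prop := 3 ≤ l ∧ ((l : ℤ) ∣ w - r ∨ (l : ℤ) ∣ n - r * (w - r))

open Classical in
lemma root_count (p : ℕ) (hp : p.Prime) (w n : ℤ) :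
    ((range p).filter (fun r : ℕ => (p : ℤ) ∣ n - r * (w - r))).card ≤ 2 := by
  have hp0 : (0 : ℤ) < p := by exact_mod_cast hp.pos
  by_cases hex : ∃ r1 : ℕ, r1 < p ∧ (p : ℤ) ∣ n - r1 * (w - r1)
  · obtain ⟨r1, h1, h2⟩ := hex
    refine (card_le_card (t := {r1, ((w - r1) % p).toNat}) ?_).trans card_le_two
    intro r hr
    rw [mem_filter, mem_range] at hr
    rw [mem_insert, mem_singleton]
    have h3 : (p : ℤ) ∣ ((r1 : ℤ) - r) * (w - r1 - r) := by
      have := dvd_sub hr.2 h2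
      have e : n - (r : ℤ) * (w - r) - (n - r1 * (w - r1)) = ((r1 : ℤ) - r) * (w - r1 - r) := by
        ring
      rwa [e] at this
    rcases (Nat.prime_iff_prime_int.1 hp).dvd_or_dvd h3 with h4 | h4
    · left
      have h5 : (p : ℤ) ∣ (r1 : ℤ) - r := h4
      have h6 : |(r1 : ℤ) - r| < p := by rw [abs_lt]; omega
      have := Int.eq_zero_of_abs_lt_dvd h5 h6
      omega
    · right
      have h5 : (w - r1) % p = (r : ℤ) % p := Int.ModEq.symm ((Int.modEq_iff_dvd).2 h4)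
      rw [h5, Int.emod_eq_of_lt (by omega) (by omega)]
      simp
  · have : (range p).filter (fun r : ℕ => (p : ℤ) ∣ n - r * (w - r)) = ∅ := by
      apply filter_eq_empty_iff.2
      intro r hr h
      exact hex ⟨r, mem_range.1 hr, h⟩
    rw [this]
    simp

open Classical in
lemma per (w n : ℤ) : PerA (Ql w n) 3 := by
  have hper : ∀ p m, Ql w n p m ↔ Ql w n p (m % p) := by
    intro p m
    unfold Ql
    refine and_congr_right fun _ => ?_
    have h0 : (p : ℤ) ∣ (m : ℤ) - ((m % p : ℕ) : ℤ) := by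
      rw [Int.natCast_mod]
      exact Int.dvd_self_sub_emod
    refine or_congr ?_ ?_
    · have e : w - ((m % p : ℕ) : ℤ) = (w - m) + ((m : ℤ) - ((m % p : ℕ) : ℤ)) := by ring
      rw [e]
      exact (dvd_add_left h0).symm
    · have e : n - ((m % p : ℕ) : ℤ) * (w - ((m % p : ℕ) : ℤ)) = (n - m * (w - m)) +
          ((m : ℤ) - ((m % p : ℕ) : ℤ)) * (w - m - ((m % p : ℕ) : ℤ)) := by ring
      rw [e]
      exact (dvd_add_left (Dvd.dvd.mul_right h0 _)).symm
  refine ⟨hper, fun p hp => ?_⟩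
  unfold rhoA
  have hp0 : (0 : ℤ) < p := by exact_mod_cast hp.pos
  have hsub : (range p).filter (fun r => ¬ p ∣ r ∧ Ql w n p r) ⊆
      {(w % p).toNat} ∪ (range p).filter (fun r : ℕ => (p : ℤ) ∣ n - r * (w - r)) := by
    intro r hr
    rw [mem_filter, mem_range] at hr
    rw [mem_union, mem_singleton, mem_filter, mem_range]
    rcases hr.2.2.2 with h | h
    · left
      have h5 : w % p = (r : ℤ) % p := Int.ModEq.symm ((Int.modEq_iff_dvd).2 h)
      rw [h5, Int.emod_eq_of_lt (by omega) (by omega)]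
      simp
    · right
      exact ⟨hr.1, h⟩
  refine (card_le_card hsub).trans ((card_union_le _ _).trans ?_)
  have := root_count p hp w n
  rw [card_singleton]
  omega

open Classical in
lemma rho_two (w n : ℤ) : rhoA (Ql w n) 2 = 0 := by
  unfold rhoA
  rw [card_eq_zero, filter_eq_empty_iff]
  intro r _ h
  have := h.2.1
  omega

open Classical in
lemma rho_three {n w : ℕ} (h : Com n w) : rhoA (Ql (w : ℤ) (n : ℤ)) 3 ≤ 1 := by
  obtain ⟨-, -, h3⟩ := h
  unfold rhoA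
  have key : ∃ r0 : ℕ, (r0 = 1 ∨ r0 = 2) ∧ ¬ Ql (w : ℤ) (n : ℤ) 3 r0 := by
    have hw : w % 3 = 0 ∨ w % 3 = 1 ∨ w % 3 = 2 := by omega
    rcases hw with hw | hw | hw
    · refine ⟨1, Or.inl rfl, ?_⟩
      rintro ⟨-, h | h⟩ <;> push_cast at h <;> omega
    · refine ⟨2, Or.inr rfl, ?_⟩
      rintro ⟨-, h | h⟩ <;> push_cast at h <;> omega
    · refine ⟨1, Or.inl rfl, ?_⟩
      rintro ⟨-, h | h⟩ <;> push_cast at h <;> omega
  obtain ⟨r0, hr0, hq⟩ := key
  refine (card_le_card (t := {3 - r0}) ?_).trans (card_singleton _).le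
  intro r hr
  rw [mem_filter, mem_range] at hr
  rw [mem_singleton]
  obtain ⟨h1, h2, h4⟩ := hr
  have hne : r ≠ r0 := by rintro rfl; exact hq h4
  have h5 : r ≠ 0 := by rintro rfl; simp at h2
  omega

/-! ### the product -/

lemma factor_le {l : ℕ} (hl : 5 ≤ l) : (1 - 1 / (l : ℝ)) ^ 7 ≤ 1 - 3 / ((l : ℝ) - 1) := by
  obtain ⟨t, rfl⟩ := Nat.exists_eq_add_of_le' hl
  push_cast
  have ht : (0 : ℝ) ≤ t := Nat.cast_nonneg _
  have e1 : (1 : ℝ) - 1 / (t + 5) = (t + 4) / (t + 5) := by field_simp; ring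
  have e2 : (1 : ℝ) - 3 / (t + 5 - 1) = (t + 1) / (t + 4) := by
    rw [show (t : ℝ) + 5 - 1 = t + 4 by ring]
    field_simp
    ring
  rw [e1, e2, div_pow, div_le_div_iff₀ (by positivity) (by positivity)]
  have : 0 ≤ (t + 1) * (t + 5 : ℝ) ^ 7 - (t + 4) ^ 7 * (t + 4) := by
    have e3 : (t + 1) * (t + 5 : ℝ) ^ 7 - (t + 4) ^ 7 * (t + 4) =
        4 * t ^ 7 + 112 * t ^ 6 + 1316 * t ^ 5 + 8330 * t ^ 4 + 30156 * t ^ 3 + 60312 * t ^ 2 +
          56428 * t + 12589 := by ring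
    rw [e3]
    positivity
  linarith

open Classical in
lemma prod_low {n w : ℕ} (h : Com n w) (z : ℕ) :
    Vz z ^ 7 ≤ ∏ p ∈ pz z, (1 - (rhoA (Ql (w : ℤ) (n : ℤ)) p : ℝ) / (p - 1 : ℝ)) := by
  unfold Vz
  rw [← prod_pow]
  apply prod_le_prod
  · intro p hp
    have hp1 := (Pool.Agent.H373R2.T7.mem_pz.1 hp).2.one_lt
    have : (1 : ℝ) / p ≤ 1 := by
      rw [div_le_one (by exact_mod_cast (by omega : 0 < p))]
      exact_mod_cast (by omega : 1 ≤ p)
    have : 0 ≤ 1 - (1 : ℝ) / p := by linarith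
    positivity
  · intro p hp
    obtain ⟨-, hpp⟩ := Pool.Agent.H373R2.T7.mem_pz.1 hp
    have hcase : p = 2 ∨ p = 3 ∨ 5 ≤ p := by
      have := hpp.two_le
      by_cases h2 : p = 2
      · exact Or.inl h2
      · by_cases h3 : p = 3
        · exact Or.inr (Or.inl h3)
        · have h4 : p ≠ 4 := by rintro rfl; revert hpp; decide
          right; right; omega
    rcases hcase with rfl | rfl | h5
    · rw [rho_two]
      norm_num
    · have h1 : (rhoA (Ql (w : ℤ) (n : ℤ)) 3 : ℝ) ≤ 1 := by exact_mod_cast rho_three h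
      have h2 : (rhoA (Ql (w : ℤ) (n : ℤ)) 3 : ℝ) / (((3 : ℕ) : ℝ) - 1) ≤ 1 / 2 := by
        push_cast
        rw [show (3 : ℝ) - 1 = 2 by norm_num]
        linarith
      have h3 : (1 - 1 / ((3 : ℕ) : ℝ)) ^ 7 ≤ 1 / 2 := by norm_num
      linarith
    · have h1 : (rhoA (Ql (w : ℤ) (n : ℤ)) p : ℝ) ≤ 3 := by exact_mod_cast (per w n).few p hpp
      have h2 : (0 : ℝ) < (p : ℝ) - 1 := by
        have : (5 : ℝ) ≤ p := by exact_mod_cast h5
        linarith
      have h3 : (rhoA (Ql (w : ℤ) (n : ℤ)) p : ℝ) / ((p : ℝ) - 1) ≤ 3 / ((p : ℝ) - 1) := by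
        gcongr
      have := factor_le h5
      linarith

/-- the product over the small primes is large -/
lemma Vz_pow_low (E k : ℕ) (c : ℝ) (hc : 0 < c) : ∃ N₀ : ℕ, ∀ N : ℕ, N₀ ≤ N → ∀ z : ℕ, 1 ≤ z →
    (z : ℝ) ≤ Real.log N ^ E → c / Real.log N ≤ Vz z ^ k := by
  obtain ⟨C, M0, hM⟩ := Pool.Agent.H373R2.T7.Vz_low
  -- `c ((M0 + 1)^k + (E log y)^(C k)) ≤ y`
  have hlim : Filter.Tendsto (fun N : ℕ => Real.log (N : ℝ)) Filter.atTop Filter.atTop :=
    Real.tendsto_log_atTop.comp (tendsto_natCast_atTop_atTop (R := ℝ))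
  have hlo := (Real.isLittleO_pow_log_id_atTop (n := C * k)).bound
    (show (0 : ℝ) < 1 / (2 * (c * ((E : ℝ) ^ (C * k)) + 1)) by positivity)
  have h1 := hlim.eventually hlo
  have h2 := hlim.eventually_ge_atTop (2 * (c * (M0 + 3) ^ k) + 3)
  obtain ⟨N₀, hN₀⟩ := Filter.eventually_atTop.1 (h1.and h2)
  refine ⟨N₀, fun N hN z hz hzE => ?_⟩
  obtain ⟨h3, h4⟩ := hN₀ N hN
  set y := Real.log N with hy
  have hM1 : (0 : ℝ) ≤ (M0 : ℝ) := Nat.cast_nonneg _
  have hcM : 0 ≤ c * ((M0 : ℝ) + 3) ^ k := by positivity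
  have hy1 : 1 < y := by linarith
  have hly : 0 ≤ Real.log y := Real.log_nonneg hy1.le
  simp only [id] at h3
  rw [Real.norm_of_nonneg (by positivity), Real.norm_of_nonneg (by linarith)] at h3
  have hbig : c * ((E : ℝ) * Real.log y) ^ (C * k) ≤ y := by
    rw [one_div, inv_mul_eq_div, le_div_iff₀ (by positivity)] at h3
    rw [mul_pow]
    have h5 : 0 ≤ Real.log y ^ (C * k) := by positivity
    have h6 : 0 ≤ c * ((E : ℝ) ^ (C * k)) := by positivity
    nlinarith
  have hz0 : (0 : ℝ) < z := by exact_mod_cast hz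
  rw [div_le_iff₀ (by linarith)]
  by_cases hzM : M0 ≤ z ∧ 3 ≤ z
  · have hV := hM z hzM.1
    have hlz1 : 1 < Real.log z := by
      rw [Real.lt_log_iff_exp_lt hz0]
      have h3' : (3 : ℝ) ≤ z := by exact_mod_cast hzM.2
      have := Real.exp_one_lt_d9
      linarith
    have hlz : Real.log z ≤ E * Real.log y := by
      have := Real.log_le_log hz0 hzE
      rwa [Real.log_pow] at this
    have h5 : (1 / Real.log z ^ C) ^ k ≤ Vz z ^ k := by
      apply pow_le_pow_left₀ _ hV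
      positivity
    have h6 : 1 / Real.log z ^ (C * k) ≤ Vz z ^ k := by
      rw [div_pow, one_pow, ← pow_mul] at h5
      exact h5
    have h7 : 0 < Real.log z ^ (C * k) := by positivity
    rw [div_le_iff₀ h7] at h6
    have h8 : Real.log z ^ (C * k) ≤ ((E : ℝ) * Real.log y) ^ (C * k) :=
      pow_le_pow_left₀ (by linarith) hlz _
    have h9 : 0 ≤ Vz z ^ k := pow_nonneg (Pool.Agent.H373R2.T7.Vz_pos z).le k
    calc c = c * 1 := (mul_one c).symm
      _ ≤ c * (Vz z ^ k * Real.log z ^ (C * k)) := mul_le_mul_of_nonneg_left h6 hc.le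
      _ ≤ c * (Vz z ^ k * ((E : ℝ) * Real.log y) ^ (C * k)) := by gcongr
      _ = Vz z ^ k * (c * ((E : ℝ) * Real.log y) ^ (C * k)) := by ring
      _ ≤ Vz z ^ k * y := mul_le_mul_of_nonneg_left hbig h9
  · have hzle : (z : ℝ) ≤ M0 + 3 := by
      have : z ≤ M0 + 3 := by omega
      exact_mod_cast this
    have h5 : 1 / (M0 + 3 : ℝ) ≤ Vz z :=
      (one_div_le_one_div_of_le hz0 hzle).trans (Pool.Agent.H373R2.T7.Vz_ge z hz)
    have h6 : (1 / (M0 + 3 : ℝ)) ^ k ≤ Vz z ^ k := pow_le_pow_left₀ (by positivity) h5 k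
    have h7 : (0 : ℝ) < (M0 + 3) ^ k := by positivity
    calc c = (1 / (M0 + 3 : ℝ)) ^ k * (c * (M0 + 3) ^ k) := by
          rw [div_pow, one_pow]; field_simp
      _ ≤ Vz z ^ k * y := by
          apply mul_le_mul h6 (by linarith) hcM
          exact pow_nonneg (Pool.Agent.H373R2.T7.Vz_pos z).le k

/-! ### the lower bound -/

open Classical in
/-- every good prime contributes -/
lemma term_ge {X W P n w z p : ℕ} (hPar : Par X W P) (hn : n ∈ Ioc (X / 2) X)
    (hw : w ∈ Ioc (W / 2) W) (hC : Com n w) (hp : p ∈ Ioc (P / 2) P) (hP : 4 ≤ P)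
    (hpp : p.Prime) (hz : ∀ l ∈ pz z, ¬ Ql (w : ℤ) (n : ℤ) l p) :
    lp p ≤ lp p * lamz z (w - p) * ev (lamz z) (n - p * (w - p)) := by
  rw [mem_Ioc] at hn hw hp
  have h4 := hPar.h4
  have h8 := hPar.h8
  have hpw : p * (w - p) ≤ X / 8 := by
    have : p * (w - p) ≤ P * W := Nat.mul_le_mul hp.2 (by omega)
    rw [Nat.le_div_iff_mul_le (by norm_num)]
    calc p * (w - p) * 8 ≤ P * W * 8 := by omega
      _ = 8 * (W * P) := by ring
      _ ≤ X := h8
  have hodd : p % 2 = 1 := by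
    rcases hpp.eq_two_or_odd with h | h
    · omega
    · exact h
  obtain ⟨c1, c2, -⟩ := hC
  have hV : 1 ≤ (Vz z)⁻¹ := by
    rw [one_le_inv₀ (Pool.Agent.H373R2.T7.Vz_pos z)]
    exact Pool.Agent.H373R2.T7.Vz_le_one z
  -- the second factor
  have e1 : lamz z (w - p) = (Vz z)⁻¹ := by
    unfold lamz
    rw [if_pos]
    intro l hl hd
    have hlp := (Pool.Agent.H373R2.T7.mem_pz.1 hl).2
    by_cases h2 : l = 2
    · subst h2
      omega
    · have hl3 : 3 ≤ l := by have := hlp.two_le; omega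
      apply hz l hl
      refine ⟨hl3, Or.inl ?_⟩
      have : ((w - p : ℕ) : ℤ) = (w : ℤ) - p := by
        rw [Nat.cast_sub (by omega)]
      rw [← this]
      exact_mod_cast hd
  -- the third factor
  set m := n - p * (w - p) with hm
  have hcast : (m : ℤ) = (n : ℤ) - p * ((w : ℤ) - p) := by
    rw [hm, Nat.cast_sub (by omega), Nat.cast_mul, Nat.cast_sub (by omega)]
  have hm4 : m % 4 = 2 := by
    have hp4 : p % 4 = 1 ∨ p % 4 = 3 := by omega
    obtain ⟨a, ha⟩ : ∃ a, p = 4 * a + p % 4 := ⟨p / 4, by omega⟩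
    obtain ⟨b, hb⟩ : ∃ b, w = 4 * b + w % 4 := ⟨w / 4, by omega⟩
    have hw4 : w % 4 < 4 := Nat.mod_lt _ (by norm_num)
    have hnw : (n % 4 = 1 ∧ w % 4 = 0) ∨ (n % 4 = 3 ∧ w % 4 = 2) := by omega
    have hpr : (p * (w - p)) % 4 = ((p % 4) * ((w - p) % 4)) % 4 := Nat.mul_mod _ _ _
    rcases hp4 with h | h <;> rcases hnw with ⟨h', h''⟩ | ⟨h', h''⟩
    · have : (w - p) % 4 = 3 := by omega
      rw [h, this] at hpr
      omega
    · have : (w - p) % 4 = 1 := by omega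
      rw [h, this] at hpr
      omega
    · have : (w - p) % 4 = 1 := by omega
      rw [h, this] at hpr
      omega
    · have : (w - p) % 4 = 3 := by omega
      rw [h, this] at hpr
      omega
  have e2 : ev (lamz z) m = (Vz z)⁻¹ := by
    unfold ev
    rw [if_pos (Nat.even_iff.2 (by omega))]
    unfold lamz
    rw [if_pos]
    intro l hl hd
    have hlp := (Pool.Agent.H373R2.T7.mem_pz.1 hl).2
    by_cases h2 : l = 2
    · subst h2
      omega
    · have hl3 : 3 ≤ l := by have := hlp.two_le; omega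
      apply hz l hl
      refine ⟨hl3, Or.inr ?_⟩
      rw [← hcast]
      have h5 : l ∣ m := by
        have : m = 2 * (m / 2) := by omega
        rw [this]
        exact Dvd.dvd.mul_left hd 2
      exact_mod_cast h5
  rw [e1, e2, mul_assoc]
  have h6 := lp_nonneg p
  nlinarith [mul_le_mul hV hV (by norm_num : (0:ℝ) ≤ 1) (by linarith)]

/-- **LOW** -/
theorem s_LOW : S_LOW := by
  classical
  intro E
  obtain ⟨N1, hN1⟩ := Pool.Agent.H373R2.T7.sys_main 3 (2 * E) 2 (by norm_num)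
  obtain ⟨N2, hN2⟩ := Vz_pow_low E 7 16 (by norm_num)
  obtain ⟨N3, hN3⟩ := ev_pow 4 64
  obtain ⟨N4, hN4⟩ := Pool.Agent.H373R2.T7.ev_L' 12800
  obtain ⟨N5, hN5⟩ := ev_pow 0 (16 * (2 * N1 + 4))
  refine ⟨max (max N2 N3) (max N4 (max N5 1)), fun X W P z n w hX hPar hz2 hzE hn hw hC => ?_⟩
  have b2 : N2 ≤ X := ((le_max_left _ _).trans (le_max_left _ _)).trans hX
  have b3 : N3 ≤ X := ((le_max_right _ _).trans (le_max_left _ _)).trans hX
  have b4 : N4 ≤ X := ((le_max_left _ _).trans (le_max_right _ _)).trans hX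
  have b5 : N5 ≤ X := (((le_max_left _ _).trans (le_max_right _ _)).trans (le_max_right _ _)).trans hX
  have b6 : 1 ≤ X := (((le_max_right _ _).trans (le_max_right _ _)).trans (le_max_right _ _)).trans hX
  have c2 := hN2 X b2 z (by omega) hzE
  have c3 := hN3 X b3
  have c4 := hN4 X b4
  have c5 := hN5 X b5
  have hP16 := Par.P_ge hPar b6
  set L := Real.log X with hL
  have hL0 : 0 < L := by linarith
  rw [pow_zero, mul_one] at c5
  have hPN : 2 * N1 + 4 ≤ P := by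
    have : (2 * (N1 : ℝ) + 4) ≤ P := by linarith
    exact_mod_cast this
  have hP4 : 4 ≤ P := by omega
  have hPr : (4 : ℝ) ≤ P := by exact_mod_cast hP4
  have hPhalf : N1 ≤ P / 2 := by omega
  have hX0 : (0 : ℝ) < X := by exact_mod_cast b6
  -- logarithms
  have hlogP2 : L / 40 ≤ Real.log ((P / 2 : ℕ) : ℝ) := by
    have e1 : (P : ℝ) / 4 ≤ ((P / 2 : ℕ) : ℝ) := by
      have : P ≤ 4 * (P / 2) := by omega
      have : (P : ℝ) ≤ 4 * ((P / 2 : ℕ) : ℝ) := by exact_mod_cast this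
      linarith
    have e2 : (X : ℝ) ^ (1 / 10 : ℝ) / 64 ≤ ((P / 2 : ℕ) : ℝ) := by linarith
    have e3 : Real.log ((X : ℝ) ^ (1 / 10 : ℝ) / 64) ≤ Real.log ((P / 2 : ℕ) : ℝ) :=
      Real.log_le_log (by positivity) e2
    rw [Real.log_div (by positivity) (by norm_num), Real.log_rpow hX0] at e3
    have e4 : Real.log 64 ≤ 63 := by
      have := Real.log_le_sub_one_of_pos (show (0 : ℝ) < 64 by norm_num)
      linarith
    linarith
  have hP2P : ((P / 2 : ℕ) : ℝ) ≤ P / 2 := by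
    have : 2 * (P / 2) ≤ P := by omega
    have : 2 * ((P / 2 : ℕ) : ℝ) ≤ P := by exact_mod_cast this
    linarith
  have hP20 : (0 : ℝ) < ((P / 2 : ℕ) : ℝ) := by
    exact_mod_cast (by omega : 0 < P / 2)
  have hlogP : L / 40 ≤ Real.log P :=
    hlogP2.trans (Real.log_le_log hP20 (by linarith))
  have hPX : P ≤ X := by
    have h8 := hPar.h8
    have h4 := hPar.h4
    have : P ≤ W * P := Nat.le_mul_of_pos_left _ (by omega)
    omega
  have hlogPX : Real.log P ≤ L := Real.log_le_log (by linarith) (by exact_mod_cast hPX)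
  have hLE : ∀ y : ℝ, L / 40 ≤ y → (z : ℝ) ≤ y ^ (2 * E) := by
    intro y hy
    refine hzE.trans ?_
    have e1 : L ≤ y ^ 2 := by nlinarith
    calc L ^ E ≤ (y ^ 2) ^ E := pow_le_pow_left₀ hL0.le e1 E
      _ = y ^ (2 * E) := by rw [← pow_mul]
  -- the main terms
  set Q := Ql (w : ℤ) (n : ℤ) with hQ
  set Pi := ∏ p ∈ pz z, (1 - (rhoA Q p : ℝ) / (p - 1 : ℝ)) with hPi
  have hPi16 : 16 / L ≤ Pi := c2.trans (prod_low hC z)
  have m1 := hN1 P (by omega) z (by omega) (hLE _ hlogP) Q (per _ _)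
  have m2 := hN1 (P / 2) hPhalf z (by omega) (hLE _ hlogP2) Q (per _ _)
  set F : ℕ → ℝ := fun N => ∑ r ∈ (Icc 1 N).filter (fun r : ℕ => ∀ p ∈ pz z, ¬ Q p r),
    ArithmeticFunction.vonMangoldt r with hF
  have hsplit : F P - F (P / 2) = ∑ r ∈ (Ioc (P / 2) P).filter (fun r : ℕ => ∀ p ∈ pz z, ¬ Q p r),
      ArithmeticFunction.vonMangoldt r := by
    simp only [hF]
    have e1 : (Icc 1 P).filter (fun r : ℕ => ∀ p ∈ pz z, ¬ Q p r) =
        (Icc 1 (P / 2)).filter (fun r : ℕ => ∀ p ∈ pz z, ¬ Q p r) ∪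
        (Ioc (P / 2) P).filter (fun r : ℕ => ∀ p ∈ pz z, ¬ Q p r) := by
      rw [← filter_union]
      congr 1
      ext r
      rw [mem_union, mem_Icc, mem_Icc, mem_Ioc]
      omega
    rw [e1, sum_union]
    · ring
    · rw [disjoint_left]
      intro r hr hr'
      rw [mem_filter, mem_Icc] at hr
      rw [mem_filter, mem_Ioc] at hr'
      omega
  have hpp : ∑ r ∈ (Ioc (P / 2) P).filter (fun r : ℕ => ∀ p ∈ pz z, ¬ Q p r),
      ArithmeticFunction.vonMangoldt r ≤
      ∑ r ∈ (Ioc (P / 2) P).filter (fun r : ℕ => ∀ p ∈ pz z, ¬ Q p r), lp r +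
        2 * √(P : ℝ) * Real.log P := by
    have h0 := Chebyshev.psi_sub_theta_le (x := (P : ℝ)) (by linarith)
    rw [Chebyshev.psi_sub_theta_eq_sum_not_prime, Nat.floor_natCast] at h0
    have e1 : ∀ r : ℕ, ArithmeticFunction.vonMangoldt r =
        lp r + if ¬ r.Prime then ArithmeticFunction.vonMangoldt r else 0 := by
      intro r
      unfold Pool.Agent.L7h88.TS.lp
      by_cases hr : r.Prime
      · rw [if_pos hr, if_neg (not_not.2 hr), ArithmeticFunction.vonMangoldt_apply_prime hr,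
          add_zero]
      · rw [if_neg hr, if_pos hr, zero_add]
    rw [sum_congr rfl fun r _ => e1 r, sum_add_distrib, ← sum_filter]
    apply add_le_add le_rfl
    refine le_trans ?_ h0
    apply sum_le_sum_of_subset_of_nonneg
    · intro r hr
      rw [mem_filter, mem_filter, mem_Ioc] at hr
      rw [mem_filter, mem_Ioc]
      exact ⟨⟨by omega, hr.1.1.2⟩, hr.2⟩
    · intro _ _ _
      exact ArithmeticFunction.vonMangoldt_nonneg
  have htri : ∑ r ∈ (Ioc (P / 2) P).filter (fun r : ℕ => ∀ p ∈ pz z, ¬ Q p r), lp r ≤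
      tri lp (lamz z) (lamz z) P n w := by
    unfold tri
    rw [sum_filter]
    apply sum_le_sum
    intro p hp
    have hnn : 0 ≤ lp p * lamz z (w - p) * ev (lamz z) (n - p * (w - p)) := by
      have h1 := lp_nonneg p
      have h2 := Pool.Agent.H373R2.T7.lamz_nonneg z (w - p)
      have h3 : 0 ≤ ev (lamz z) (n - p * (w - p)) := by
        unfold ev
        split_ifs
        · exact Pool.Agent.H373R2.T7.lamz_nonneg z _
        · exact le_rfl
      positivity
    split_ifs with hq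
    · by_cases hpr : p.Prime
      · exact term_ge hPar hn hw hC hp hP4 hpr hq
      · have : lp p = 0 := by
          unfold Pool.Agent.L7h88.TS.lp
          rw [if_neg hpr]
        rw [this] at hnn ⊢
        exact hnn
    · exact hnn
  -- numerics
  have n1 := (abs_le.1 m1).1
  have n2 := (abs_le.1 m2).2
  have hPiP : (P : ℝ) / 2 * Pi ≤ P * Pi - ((P / 2 : ℕ) : ℝ) * Pi := by
    have : 0 ≤ Pi := le_trans (by positivity) hPi16
    nlinarith
  have e1 : (P : ℝ) / Real.log P ^ 2 ≤ P / L := by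
    apply div_le_div_of_nonneg_left (by linarith) hL0
    nlinarith
  have e2 : ((P / 2 : ℕ) : ℝ) / Real.log ((P / 2 : ℕ) : ℝ) ^ 2 ≤ P / L := by
    apply div_le_div₀ (by linarith) (by linarith) hL0
    nlinarith
  have e3 : 2 * √(P : ℝ) * Real.log P ≤ P / L := by
    rw [le_div_iff₀ hL0]
    have h1 : 4 * L ^ 4 ≤ P := by linarith
    have h2 : 2 * L ^ 2 ≤ √(P : ℝ) := by
      apply Real.le_sqrt_of_sq_le
      linarith [show (2 * L ^ 2) ^ 2 = 4 * L ^ 4 by ring]
    have h3 : √(P : ℝ) * √(P : ℝ) = P := Real.mul_self_sqrt (by linarith)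
    have h4 : 0 ≤ √(P : ℝ) := Real.sqrt_nonneg _
    calc 2 * √(P : ℝ) * Real.log P * L ≤ 2 * √(P : ℝ) * L * L := by gcongr
      _ = √(P : ℝ) * (2 * L ^ 2) := by ring
      _ ≤ √(P : ℝ) * √(P : ℝ) := mul_le_mul_of_nonneg_left h2 h4
      _ = P := h3
  have e4 : 8 * (P / L) ≤ (P : ℝ) / 2 * Pi := by
    calc 8 * (P / L) = (P : ℝ) / 2 * (16 / L) := by ring
      _ ≤ _ := mul_le_mul_of_nonneg_left hPi16 (by positivity)
  have e5 : 0 ≤ (P : ℝ) / L := by positivity
  change -(P / Real.log P ^ 2) ≤ F P - P * Pi at n1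
  change F (P / 2) - ((P / 2 : ℕ) : ℝ) * Pi ≤
    ((P / 2 : ℕ) : ℝ) / Real.log ((P / 2 : ℕ) : ℝ) ^ 2 at n2
  linarith

end Pool.Agent.L7h50.TS
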