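import Pool.Agent.L7h50.TS.Fin1
import Pool.Agent.L7h88.BW.Fin2

set_option autoImplicit false

/-! Project TS: primes just below `n/2` (`S_PRW`). -/

namespace Pool.Agent.L7h50.TS
open Finset Filter
open Pool.Agent.L7h88.TS
open Pool.Agent.L7h88.BW (th Fc S_BVG S_POOR grid ev_pow_exp)

/-- the primes of the statement -/
def PR (n : ℕ) : Finset ℕ := (Icc 1 n).filter (fun q : ℕ => q.Prime ∧ q % 3 = 1 ∧
  Nat.sqrt n + 2 * q < n + 1 ∧ n + 1 ≤ 2 * Nat.sqrt n + 2 * q)

open Classical in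
/-- the bad windows -/
noncomputable def Bw (Y κ t c : ℝ) : Finset ℕ := (range (⌊1 / (2 * κ)⌋₊ - 1)).filter
  (fun j : ℕ => th (Y - 1 / 4 + t + j * κ) κ 3 1 < c / 4 * κ * Real.exp Y)

open Classical in
lemma Bw_card {Y κ t c : ℝ} {A' : ℕ} (hκ : 0 < κ) (hc : 0 < c) (hY : 0 < Y) (hF : 3 ≤ Fc Y)
    (h1 : (((range (⌊1 / (2 * κ)⌋₊ - 1)).filter
      (fun j : ℕ => th (Y - 1 / 4 + t + j * κ) κ 1 0 < c * κ * Real.exp Y)).card : ℝ) ≤
        Real.exp (0.306 * Y))
    (h2 : ∀ a : ℕ → ℕ → ℕ, (∀ j q, (a j q).Coprime q) →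
      ∑ j ∈ range (⌊1 / (2 * κ)⌋₊ - 1), ∑ q ∈ Icc 1 (Fc Y),
        |th (Y - 1 / 4 + t + j * κ) κ q (a j q) - th (Y - 1 / 4 + t + j * κ) κ 1 0 / (Nat.totient q : ℝ)| ≤
          Real.exp Y / Y ^ A') :
    ((Bw Y κ t c).card : ℝ) ≤ Real.exp (0.306 * Y) + 4 / (c * κ * Y ^ A') := by
  set R := range (⌊1 / (2 * κ)⌋₊ - 1) with hR
  set u : ℕ → ℝ := fun j => Y - 1 / 4 + t + j * κ with hu
  have h3 : ∑ j ∈ R, |th (u j) κ 3 1 - th (u j) κ 1 0 / 2| ≤ Real.exp Y / Y ^ A' := by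
    refine le_trans ?_ (h2 (fun _ _ => 1) fun _ q => Nat.coprime_one_left q)
    apply sum_le_sum
    intro j _
    have e1 := single_le_sum (s := Icc 1 (Fc Y)) (f := fun q : ℕ =>
      |th (u j) κ q 1 - th (u j) κ 1 0 / (Nat.totient q : ℝ)|) (fun _ _ => abs_nonneg _)
      (mem_Icc.2 ⟨by norm_num, hF⟩ : 3 ∈ Icc 1 (Fc Y))
    have e2 : (Nat.totient 3 : ℝ) = 2 := by
      have : Nat.totient 3 = 2 := by decide
      rw [this]; norm_num
    simp only [e2] at e1
    exact e1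
  set S1 := R.filter (fun j : ℕ => th (u j) κ 1 0 < c * κ * Real.exp Y) with hS1
  set S2 := R.filter (fun j : ℕ => c / 4 * κ * Real.exp Y ≤ |th (u j) κ 3 1 - th (u j) κ 1 0 / 2|)
    with hS2
  have hsub : Bw Y κ t c ⊆ S1 ∪ S2 := by
    intro j hj
    unfold Bw at hj
    rw [mem_filter] at hj
    rw [mem_union, hS1, hS2, mem_filter, mem_filter]
    by_cases h : th (u j) κ 1 0 < c * κ * Real.exp Y
    · exact Or.inl ⟨hj.1, h⟩
    · right
      refine ⟨hj.1, ?_⟩
      rw [not_lt] at h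
      have h5 : th (u j) κ 3 1 < c / 4 * κ * Real.exp Y := hj.2
      rw [abs_sub_comm]
      refine le_trans ?_ (le_abs_self _)
      linarith
  have h4 : (S2.card : ℝ) * (c / 4 * κ * Real.exp Y) ≤ Real.exp Y / Y ^ A' := by
    refine le_trans ?_ h3
    rw [← nsmul_eq_mul]
    refine (card_nsmul_le_sum S2 (fun j => |th (u j) κ 3 1 - th (u j) κ 1 0 / 2|) _ fun j hj =>
      (mem_filter.1 hj).2).trans ?_
    exact sum_le_sum_of_subset_of_nonneg (filter_subset _ _) fun _ _ _ => abs_nonneg _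
  have h5 : (S2.card : ℝ) ≤ 4 / (c * κ * Y ^ A') := by
    rw [← le_div_iff₀ (by positivity)] at h4
    refine h4.trans (le_of_eq ?_)
    field_simp
  have h6 : ((Bw Y κ t c).card : ℝ) ≤ (S1.card : ℝ) + S2.card := by
    exact_mod_cast (card_le_card hsub).trans (card_union_le _ _)
  have h7 : (S1.card : ℝ) ≤ Real.exp (0.306 * Y) := h1
  linarith

/-- the left end of the interval -/
noncomputable def al (n : ℕ) : ℝ := Real.log (((n : ℝ) - 1.9 * √(n : ℝ)) / 2)

/-- the right end of the interval -/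
noncomputable def be (n : ℕ) : ℝ := Real.log (((n : ℝ) - 1.1 * √(n : ℝ)) / 2)

open Classical in
/-- the windows inside the interval of `n` -/
noncomputable def Wi (Y κ t : ℝ) (n : ℕ) : Finset ℕ := (range (⌊1 / (2 * κ)⌋₊ - 1)).filter
  (fun j : ℕ => al n ≤ Y - 1 / 4 + t + j * κ ∧ Y - 1 / 4 + t + j * κ + κ ≤ be n)

lemma ends {n : ℕ} (hn : 40000 ≤ n) : 0 < ((n : ℝ) - 1.9 * √(n : ℝ)) / 2 ∧
    0 < ((n : ℝ) - 1.1 * √(n : ℝ)) / 2 ∧ 200 ≤ √(n : ℝ) ∧ √(n : ℝ) * √(n : ℝ) = n := by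
  have h1 : (200 : ℝ) ≤ √(n : ℝ) := by
    apply Real.le_sqrt_of_sq_le
    norm_num
    exact_mod_cast hn
  have h2 : √(n : ℝ) * √(n : ℝ) = n := Real.mul_self_sqrt (Nat.cast_nonneg _)
  refine ⟨by nlinarith, by nlinarith, h1, h2⟩

/-- many windows -/
lemma Wi_card {Y κ t : ℝ} {n : ℕ} (hn : 40000 ≤ n) (hκ : 0 < κ) (hκ1 : κ ≤ 1 / 100) (ht0 : 0 ≤ t)
    (ht : t ≤ κ) (h1 : Y - 1 / 5 ≤ Real.log ((n : ℝ) / 2)) (h2 : Real.log ((n : ℝ) / 2) ≤ Y + 1 / 5)
    (hQ : 20 ≤ Real.exp (-(Y / 2)) / κ) :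
    0.3 * (Real.exp (-(Y / 2)) / κ) ≤ ((Wi Y κ t n).card : ℝ) := by
  classical
  obtain ⟨p1, p2, p3, p4⟩ := ends hn
  have hn0 : (0 : ℝ) < n := by exact_mod_cast (by omega : 0 < n)
  set M := ⌊1 / (2 * κ)⌋₊ - 1 with hM
  have hMκ : 1 / 2 - 2 * κ ≤ M * κ := by
    have h5 : 1 / (2 * κ) - 1 < ⌊1 / (2 * κ)⌋₊ := Nat.sub_one_lt_floor _
    have h6 : ((⌊1 / (2 * κ)⌋₊ : ℝ)) - 1 ≤ M := by
      rw [sub_le_iff_le_add, hM]
      exact_mod_cast (by omega : ⌊1 / (2 * κ)⌋₊ ≤ ⌊1 / (2 * κ)⌋₊ - 1 + 1)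
    have h7 : 1 / (2 * κ) - 2 ≤ M := by linarith
    have h8 := mul_le_mul_of_nonneg_right h7 hκ.le
    have h9 : (1 / (2 * κ) - 2) * κ = 1 / 2 - 2 * κ := by field_simp
    linarith
  have hal : Real.log ((n : ℝ) / 2) - 1 / 50 ≤ al n := by
    have e1 := Real.one_sub_inv_le_log_of_pos
      (show 0 < (((n : ℝ) - 1.9 * √(n : ℝ)) / 2) / ((n : ℝ) / 2) by positivity)
    rw [Real.log_div p1.ne' (by positivity), inv_div] at e1
    have e2 : ((n : ℝ) / 2) / (((n : ℝ) - 1.9 * √(n : ℝ)) / 2) ≤ 1 + 1 / 50 := by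
      rw [div_le_iff₀ p1]
      nlinarith
    unfold al
    linarith
  have hbe : be n ≤ Real.log ((n : ℝ) / 2) := by
    unfold be
    apply Real.log_le_log p2
    linarith
  have hlen : 0.4 * Real.exp (-(Y / 2)) ≤ be n - al n := by
    have e1 := Real.one_sub_inv_le_log_of_pos
      (show 0 < (((n : ℝ) - 1.1 * √(n : ℝ)) / 2) / (((n : ℝ) - 1.9 * √(n : ℝ)) / 2) by positivity)
    rw [Real.log_div p2.ne' p1.ne', inv_div] at e1
    have e2 : 1 - (((n : ℝ) - 1.9 * √(n : ℝ)) / 2) / (((n : ℝ) - 1.1 * √(n : ℝ)) / 2) =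
        0.4 * √(n : ℝ) / (((n : ℝ) - 1.1 * √(n : ℝ)) / 2) := by
      rw [eq_div_iff p2.ne', sub_mul, div_mul_cancel₀ _ p2.ne']
      ring
    rw [e2] at e1
    have e3 : 0.8 / √(n : ℝ) ≤ 0.4 * √(n : ℝ) / (((n : ℝ) - 1.1 * √(n : ℝ)) / 2) := by
      rw [div_le_div_iff₀ (by linarith) p2]
      nlinarith
    have e4 : √(n : ℝ) ≤ 2 * Real.exp (Y / 2) := by
      rw [Real.sqrt_le_left (by positivity), mul_pow, ← Real.exp_nat_mul]
      have e5 : (n : ℝ) / 2 ≤ Real.exp (Y + 1 / 5) := by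
        rw [← Real.log_le_iff_le_exp (by positivity)]; exact h2
      rw [Real.exp_add] at e5
      have e6 : Real.exp (1 / 5 : ℝ) ≤ 2 := by
        have := Real.exp_bound_div_one_sub_of_interval (x := (1 / 5 : ℝ)) (by norm_num) (by norm_num)
        exact this.trans (by norm_num)
      have e7 : Real.exp (((2 : ℕ) : ℝ) * (Y / 2)) = Real.exp Y := by
        congr 1; push_cast; ring
      rw [e7]
      have := mul_le_mul_of_nonneg_left e6 (Real.exp_pos Y).le
      linarith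
    have e5 : 0.4 * Real.exp (-(Y / 2)) ≤ 0.8 / √(n : ℝ) := by
      rw [le_div_iff₀ (by linarith), Real.exp_neg]
      have h5 := Real.exp_pos (Y / 2)
      calc 0.4 * (Real.exp (Y / 2))⁻¹ * √(n : ℝ) ≤
            0.4 * (Real.exp (Y / 2))⁻¹ * (2 * Real.exp (Y / 2)) := by gcongr
        _ = 0.8 := by field_simp; norm_num
    unfold al be
    linarith
  have hg := grid (s := Y - 1 / 4 + t) (κ := κ) (a := al n) (b := be n) (M := M) hκ
    (by linarith) (by linarith)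
  have hcard : ((Wi Y κ t n).card : ℝ) = (((range M).filter (fun j : ℕ =>
      al n ≤ Y - 1 / 4 + t + j * κ ∧ Y - 1 / 4 + t + j * κ + κ ≤ be n)).card : ℝ) := by
    unfold Wi
    congr
  rw [hcard]
  refine le_trans ?_ hg
  have e1 : 0.4 * (Real.exp (-(Y / 2)) / κ) ≤ (be n - al n) / κ := by
    rw [← mul_div_assoc]
    exact div_le_div_of_nonneg_right hlen hκ.le
  linarith

open Classical in
/-- good windows give primes -/
lemma PR_ge {Y κ t c : ℝ} {n : ℕ} (hn : 40000 ≤ n) (hκ : 0 < κ) :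
    (((Wi Y κ t n).filter (fun j => j ∉ Bw Y κ t c)).card : ℝ) * (c / 4 * κ * Real.exp Y) ≤
      ((PR n).card : ℝ) * Real.log n := by
  obtain ⟨p1, p2, p3, p4⟩ := ends hn
  have hn0 : (0 : ℝ) < n := by exact_mod_cast (by omega : 0 < n)
  set G := (Wi Y κ t n).filter (fun j => j ∉ Bw Y κ t c) with hG
  let u : ℕ → ℝ := fun j => Y - 1 / 4 + t + j * κ
  let T : ℕ → Finset ℕ := fun j => (Icc 1 ⌊Real.exp (u j + κ)⌋₊).filter
    (fun p : ℕ => p.Prime ∧ u j < Real.log p ∧ p ≡ 1 [MOD 3])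
  have hth : ∀ j, th (u j) κ 3 1 = ∑ p ∈ T j, Real.log p := fun j => rfl
  have hTm : ∀ j, ∀ p ∈ T j, p.Prime ∧ u j < Real.log p ∧ Real.log p ≤ u j + κ ∧ p % 3 = 1 := by
    intro j p hp
    rw [mem_filter, mem_Icc] at hp
    have hp0 : (0 : ℝ) < p := by exact_mod_cast hp.2.1.pos
    refine ⟨hp.2.1, hp.2.2.1, ?_, hp.2.2.2⟩
    rw [Real.log_le_iff_le_exp hp0]
    exact (Nat.cast_le.2 hp.1.2).trans (Nat.floor_le (Real.exp_pos _).le)
  have hdisj : (G : Set ℕ).PairwiseDisjoint T := by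
    intro i _ j _ hij
    change Disjoint (T i) (T j)
    rw [disjoint_left]
    intro p hp hp'
    obtain ⟨-, a1, a2, -⟩ := hTm i p hp
    obtain ⟨-, b1, b2, -⟩ := hTm j p hp'
    simp only [u] at a1 a2 b1 b2
    rcases lt_or_gt_of_ne hij with h | h
    · have h5 : (i : ℝ) + 1 ≤ j := by exact_mod_cast h
      nlinarith
    · have h5 : (j : ℝ) + 1 ≤ i := by exact_mod_cast h
      nlinarith
  have hsq1 : (Nat.sqrt n : ℝ) ≤ √(n : ℝ) := Real.nat_sqrt_le_real_sqrt
  have hsq2 : √(n : ℝ) < Nat.sqrt n + 1 := Real.real_sqrt_lt_nat_sqrt_succ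
  have hsub : G.biUnion T ⊆ PR n := by
    intro p hp
    rw [mem_biUnion] at hp
    obtain ⟨j, hj, hpj⟩ := hp
    obtain ⟨a1, a2, a3, a4⟩ := hTm j p hpj
    rw [hG, mem_filter] at hj
    have hjW := hj.1
    unfold Wi at hjW
    rw [mem_filter] at hjW
    obtain ⟨-, b1, b2⟩ := hjW
    have hp0 : (0 : ℝ) < p := by exact_mod_cast a1.pos
    have c1 : ((n : ℝ) - 1.9 * √(n : ℝ)) / 2 < p := by
      rw [← Real.log_lt_log_iff p1 hp0]
      exact lt_of_le_of_lt b1 a2
    have c2 : (p : ℝ) ≤ ((n : ℝ) - 1.1 * √(n : ℝ)) / 2 := by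
      rw [← Real.log_le_log_iff hp0 p2]
      exact a3.trans b2
    unfold PR
    rw [mem_filter, mem_Icc]
    refine ⟨⟨a1.one_le, ?_⟩, a1, a4, ?_, ?_⟩
    · have : (p : ℝ) ≤ n := by linarith
      exact_mod_cast this
    · have : (Nat.sqrt n : ℝ) + 2 * p < n + 1 := by linarith
      exact_mod_cast this
    · have : (n : ℝ) + 1 ≤ 2 * Nat.sqrt n + 2 * p := by linarith
      exact_mod_cast this
  have h1 : (G.card : ℝ) * (c / 4 * κ * Real.exp Y) ≤ ∑ j ∈ G, th (u j) κ 3 1 := by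
    rw [← nsmul_eq_mul]
    apply card_nsmul_le_sum
    intro j hj
    rw [hG, mem_filter] at hj
    have hjW := hj.1
    unfold Wi at hjW
    rw [mem_filter] at hjW
    have h5 := hj.2
    unfold Bw at h5
    rw [mem_filter, not_and_or, not_lt] at h5
    rcases h5 with h5 | h5
    · exact absurd hjW.1 h5
    · exact h5
  refine h1.trans ?_
  calc ∑ j ∈ G, th (u j) κ 3 1 = ∑ j ∈ G, ∑ p ∈ T j, Real.log p := sum_congr rfl fun j _ => hth j
    _ = ∑ p ∈ G.biUnion T, Real.log p := (sum_biUnion hdisj).symm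
    _ ≤ ∑ p ∈ PR n, Real.log p := sum_le_sum_of_subset_of_nonneg hsub fun p _ _ =>
        Real.log_natCast_nonneg p
    _ ≤ ∑ p ∈ PR n, Real.log n := by
        apply sum_le_sum
        intro p hp
        unfold PR at hp
        rw [mem_filter, mem_Icc] at hp
        exact Real.log_le_log (by exact_mod_cast hp.1.1) (by exact_mod_cast hp.1.2)
    _ = _ := by rw [sum_const, nsmul_eq_mul]

open Classical in
/-- few `n` for a window -/
lemma n_card {Y κ t : ℝ} (hκ : 0 < κ) (hY : 10 ≤ Real.exp (Y / 2)) (S : Finset ℕ)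
    (hS : ∀ n ∈ S, 40000 ≤ n ∧ Real.log ((n : ℝ) / 2) ≤ Y + 1 / 5) (j : ℕ) :
    ((S.filter (fun n => j ∈ Wi Y κ t n)).card : ℝ) ≤ 4 * Real.exp (Y / 2) := by
  set v := 2 * Real.exp (Y - 1 / 4 + t + j * κ) with hv
  have hv0 : 0 < v := by positivity
  have hsub : S.filter (fun n => j ∈ Wi Y κ t n) ⊆ Ioc ⌊v⌋₊ ⌊v + 3.8 * Real.exp (Y / 2)⌋₊ := by
    intro n hn
    rw [mem_filter] at hn
    obtain ⟨h1, h2⟩ := hn
    obtain ⟨h3, h4⟩ := hS n h1
    obtain ⟨p1, p2, p3, p4⟩ := ends h3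
    have hn0 : (0 : ℝ) < n := by exact_mod_cast (by omega : 0 < n)
    unfold Wi at h2
    rw [mem_filter] at h2
    obtain ⟨-, b1, b2⟩ := h2
    have c1 : ((n : ℝ) - 1.9 * √(n : ℝ)) / 2 ≤ Real.exp (Y - 1 / 4 + t + j * κ) := by
      rw [← Real.log_le_iff_le_exp p1]
      exact b1
    have c2 : Real.exp (Y - 1 / 4 + t + j * κ) ≤ ((n : ℝ) - 1.1 * √(n : ℝ)) / 2 := by
      rw [← Real.le_log_iff_exp_le p2]
      refine le_trans ?_ b2
      linarith
    have e4 : √(n : ℝ) ≤ 2 * Real.exp (Y / 2) := by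
      rw [Real.sqrt_le_left (by positivity), mul_pow, ← Real.exp_nat_mul]
      have e5 : (n : ℝ) / 2 ≤ Real.exp (Y + 1 / 5) := by
        rw [← Real.log_le_iff_le_exp (by positivity)]; exact h4
      rw [Real.exp_add] at e5
      have e6 : Real.exp (1 / 5 : ℝ) ≤ 2 := by
        have := Real.exp_bound_div_one_sub_of_interval (x := (1 / 5 : ℝ)) (by norm_num) (by norm_num)
        exact this.trans (by norm_num)
      have e7 : Real.exp (((2 : ℕ) : ℝ) * (Y / 2)) = Real.exp Y := by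
        congr 1; push_cast; ring
      rw [e7]
      have := mul_le_mul_of_nonneg_left e6 (Real.exp_pos Y).le
      linarith
    rw [mem_Ioc, Nat.floor_lt hv0.le, Nat.le_floor_iff (by positivity)]
    constructor
    · linarith
    · linarith
  have h1 : ((S.filter (fun n => j ∈ Wi Y κ t n)).card : ℝ) ≤
      ((⌊v + 3.8 * Real.exp (Y / 2)⌋₊ - ⌊v⌋₊ : ℕ) : ℝ) := by
    have := card_le_card hsub
    rw [Nat.card_Ioc] at this
    exact_mod_cast this
  have h2 : ⌊v⌋₊ ≤ ⌊v + 3.8 * Real.exp (Y / 2)⌋₊ := Nat.floor_le_floor (by linarith)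
  rw [Nat.cast_sub h2] at h1
  have h3 := Nat.floor_le (show 0 ≤ v + 3.8 * Real.exp (Y / 2) by positivity)
  have h4 := Nat.lt_floor_add_one v
  linarith

open Classical in
/-- one block -/
theorem block (hBVG : S_BVG) (hPOOR : S_POOR) : ∃ c : ℝ, 0 < c ∧ ∀ A : ℕ, ∃ Y₀ : ℝ, ∀ Y : ℝ,
    Y₀ ≤ Y → ∀ S : Finset ℕ, (∀ n ∈ S, Y - 1 / 5 ≤ Real.log ((n : ℝ) / 2) ∧
      Real.log ((n : ℝ) / 2) ≤ Y + 1 / 5 ∧ ((PR n).card : ℝ) < c * √(n : ℝ) / Real.log n) →
    (S.card : ℝ) ≤ Real.exp Y / Y ^ A := by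
  obtain ⟨c, η, Y₁, hc, hη, hP⟩ := hPOOR
  refine ⟨c / 60, by positivity, fun A => ?_⟩
  obtain ⟨Y₂, hB⟩ := hBVG (A + 2)
  set η' := min η (1 / 250) with hη'
  have hη'0 : 0 < η' := lt_min hη (by norm_num)
  have hη'1 : η' ≤ η := min_le_left _ _
  have hη'2 : η' ≤ 1 / 250 := min_le_right _ _
  have ev1 := ev_pow_exp 2 0.19 (A + 1) (by norm_num)
  have ev2 := ev_pow_exp 20 η' 0 hη'0
  obtain ⟨Y₃, h3⟩ := eventually_atTop.1 (ev1.and ev2)
  refine ⟨max (max Y₁ Y₂) (max Y₃ (max 200 (8 / c))), fun Y hY S hS => ?_⟩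
  have b1 : Y₁ ≤ Y := ((le_max_left _ _).trans (le_max_left _ _)).trans hY
  have b2 : Y₂ ≤ Y := ((le_max_right _ _).trans (le_max_left _ _)).trans hY
  have b3 : Y₃ ≤ Y := ((le_max_left _ _).trans (le_max_right _ _)).trans hY
  have b4 : 200 ≤ Y := (((le_max_left _ _).trans (le_max_right _ _)).trans (le_max_right _ _)).trans hY
  have b5 : 8 / c ≤ Y := (((le_max_right _ _).trans (le_max_right _ _)).trans (le_max_right _ _)).trans hY
  obtain ⟨c1, c2⟩ := h3 Y b3
  rw [pow_zero, mul_one] at c2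
  have hY0 : 0 < Y := by linarith
  set κ := Real.exp (-((1 / 2 + η') * Y)) with hκd
  have hκ : 0 < κ := Real.exp_pos _
  have k1 : Real.exp (-(0.504 * Y)) ≤ κ := Real.exp_le_exp.2 (by nlinarith)
  have k2 : κ ≤ Real.exp (-(Y / 4)) := Real.exp_le_exp.2 (by nlinarith)
  have k3 : Real.exp (-((1 / 2 + η) * Y)) ≤ κ := Real.exp_le_exp.2 (by nlinarith)
  have k4 : κ ≤ 1 / 100 := by
    refine k2.trans ?_
    rw [Real.exp_neg, one_div]
    apply inv_anti₀ (by norm_num)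
    have := Real.add_one_le_exp (Y / 4)
    have e2 : Real.exp (Y / 4) = Real.exp (Y / 8) * Real.exp (Y / 8) := by
      rw [← Real.exp_add]; congr 1; ring
    have e3 := Real.add_one_le_exp (Y / 8)
    rw [e2]
    nlinarith
  have hQe : Real.exp (-(Y / 2)) / κ = Real.exp (η' * Y) := by
    rw [hκd, ← Real.exp_sub]; congr 1; ring
  have hQ : 20 ≤ Real.exp (-(Y / 2)) / κ := by rw [hQe]; exact c2
  obtain ⟨t, ht0, htκ, hBt⟩ := hB Y b2 κ k1 k2
  have hPt := hP Y b1 κ t k3 k2 ht0 htκ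
  have hF : 3 ≤ Fc Y := by
    unfold Pool.Agent.L7h88.BW.Fc
    apply Nat.le_floor
    have := Real.add_one_le_exp (Y / 100)
    push_cast
    linarith
  have hBw := Bw_card hκ hc hY0 hF hPt hBt
  -- the number of the bad windows
  have hBw2 : ((Bw Y κ t c).card : ℝ) ≤ 1 / (κ * Y ^ (A + 1)) := by
    have e1 : 4 / (c * κ * Y ^ (A + 2)) ≤ 1 / (κ * Y ^ (A + 1)) / 2 := by
      rw [div_div, div_le_div_iff₀ (by positivity) (by positivity), pow_succ Y (A + 1)]
      have h8 : 8 ≤ c * Y := by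
        rw [div_le_iff₀ hc] at b5
        linarith
      have h9 : 0 ≤ κ * Y ^ (A + 1) := by positivity
      calc 4 * (κ * Y ^ (A + 1) * 2) = 8 * (κ * Y ^ (A + 1)) := by ring
        _ ≤ (c * Y) * (κ * Y ^ (A + 1)) := mul_le_mul_of_nonneg_right h8 h9
        _ = 1 * (c * κ * (Y ^ (A + 1) * Y)) := by ring
    have e2 : Real.exp (0.306 * Y) ≤ 1 / (κ * Y ^ (A + 1)) / 2 := by
      rw [div_div, le_div_iff₀ (by positivity)]
      have e3 : Real.exp (0.306 * Y) * κ ≤ Real.exp (-(0.19 * Y)) := by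
        rw [hκd, ← Real.exp_add]
        apply Real.exp_le_exp.2
        nlinarith
      calc Real.exp (0.306 * Y) * (κ * Y ^ (A + 1) * 2) =
            (Real.exp (0.306 * Y) * κ) * (2 * Y ^ (A + 1)) := by ring
        _ ≤ Real.exp (-(0.19 * Y)) * Real.exp (0.19 * Y) :=
            mul_le_mul e3 c1 (by positivity) (Real.exp_pos _).le
        _ = 1 := by rw [← Real.exp_add]; simp
    linarith
  -- all `n` are large
  have hS1 : ∀ n ∈ S, 40000 ≤ n := by
    intro n hn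
    obtain ⟨h1, -, -⟩ := hS n hn
    have hn0 : (0 : ℝ) < n := by
      by_contra hc
      have : (n : ℝ) = 0 := le_antisymm (not_lt.1 hc) (Nat.cast_nonneg _)
      rw [this] at h1
      simp at h1
      linarith
    have h2 : Real.exp 16 ≤ (n : ℝ) / 2 := by
      rw [← Real.le_log_iff_exp_le (by positivity)]
      linarith
    have h3 : (2 : ℝ) ^ 16 ≤ Real.exp 16 := by
      have e1 : Real.exp 16 = Real.exp 1 ^ 16 := by rw [← Real.exp_nat_mul]; norm_num
      rw [e1]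
      apply pow_le_pow_left₀ (by norm_num)
      have := Real.add_one_le_exp (1 : ℝ)
      linarith
    have : (40000 : ℝ) ≤ n := by
      have : (2 : ℝ) ^ 16 = 65536 := by norm_num
      linarith
    exact_mod_cast this
  -- bad `n` have many bad windows
  have hbad : ∀ n ∈ S, 0.15 * (Real.exp (-(Y / 2)) / κ) ≤
      (((Bw Y κ t c).filter (fun j => j ∈ Wi Y κ t n)).card : ℝ) := by
    intro n hn
    obtain ⟨h1, h2, h5⟩ := hS n hn
    have hn1 := hS1 n hn
    have hn0 : (0 : ℝ) < n := by exact_mod_cast (by omega : 0 < n)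
    have hlogn : 0 < Real.log n := Real.log_pos (by exact_mod_cast (by omega : 1 < n))
    have hW := Wi_card hn1 hκ k4 ht0 htκ h1 h2 hQ
    have hG := PR_ge (Y := Y) (κ := κ) (t := t) (c := c) hn1 hκ
    by_contra hcon
    rw [not_le] at hcon
    have e1 : ((Wi Y κ t n).card : ℝ) = (((Wi Y κ t n).filter (fun j => j ∈ Bw Y κ t c)).card : ℝ) +
        (((Wi Y κ t n).filter (fun j => j ∉ Bw Y κ t c)).card : ℝ) := by
      exact_mod_cast (card_filter_add_card_filter_not (s := Wi Y κ t n)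
        (p := fun j => j ∈ Bw Y κ t c)).symm
    have e2 : ((Wi Y κ t n).filter (fun j => j ∈ Bw Y κ t c)) =
        (Bw Y κ t c).filter (fun j => j ∈ Wi Y κ t n) := by
      ext j
      rw [mem_filter, mem_filter]
      tauto
    rw [e2] at e1
    have e3 : 0.15 * (Real.exp (-(Y / 2)) / κ) ≤
        (((Wi Y κ t n).filter (fun j => j ∉ Bw Y κ t c)).card : ℝ) := by linarith
    have e4 : 0.15 * (Real.exp (-(Y / 2)) / κ) * (c / 4 * κ * Real.exp Y) ≤
        ((PR n).card : ℝ) * Real.log n :=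
      (mul_le_mul_of_nonneg_right e3 (by positivity)).trans hG
    have e5 : 0.15 * (Real.exp (-(Y / 2)) / κ) * (c / 4 * κ * Real.exp Y) =
        0.0375 * c * Real.exp (Y / 2) := by
      have : Real.exp Y = Real.exp (Y / 2) * Real.exp (Y / 2) := by
        rw [← Real.exp_add]; congr 1; ring
      rw [this, Real.exp_neg]
      have := Real.exp_pos (Y / 2)
      field_simp
      ring
    rw [e5] at e4
    have e6 : √(n : ℝ) ≤ 2 * Real.exp (Y / 2) := by
      rw [Real.sqrt_le_left (by positivity), mul_pow, ← Real.exp_nat_mul]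
      have e5 : (n : ℝ) / 2 ≤ Real.exp (Y + 1 / 5) := by
        rw [← Real.log_le_iff_le_exp (by positivity)]; exact h2
      rw [Real.exp_add] at e5
      have e6 : Real.exp (1 / 5 : ℝ) ≤ 2 := by
        have := Real.exp_bound_div_one_sub_of_interval (x := (1 / 5 : ℝ)) (by norm_num) (by norm_num)
        exact this.trans (by norm_num)
      have e7 : Real.exp (((2 : ℕ) : ℝ) * (Y / 2)) = Real.exp Y := by
        congr 1; push_cast; ring
      rw [e7]
      have := mul_le_mul_of_nonneg_left e6 (Real.exp_pos Y).le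
      linarith
    rw [lt_div_iff₀ hlogn] at h5
    have e7 : c / 60 * √(n : ℝ) ≤ 0.0375 * c * Real.exp (Y / 2) := by
      have := mul_le_mul_of_nonneg_left e6 (show 0 ≤ c / 60 by positivity)
      have h9 : 0 < c * Real.exp (Y / 2) := by positivity
      linarith
    linarith
  -- double counting
  have hdc : (S.card : ℝ) * (0.15 * (Real.exp (-(Y / 2)) / κ)) ≤
      ((Bw Y κ t c).card : ℝ) * (4 * Real.exp (Y / 2)) := by
    calc (S.card : ℝ) * (0.15 * (Real.exp (-(Y / 2)) / κ)) ≤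
          ∑ n ∈ S, (((Bw Y κ t c).filter (fun j => j ∈ Wi Y κ t n)).card : ℝ) := by
          rw [← nsmul_eq_mul]
          exact card_nsmul_le_sum _ _ _ hbad
      _ = ∑ j ∈ Bw Y κ t c, ((S.filter (fun n => j ∈ Wi Y κ t n)).card : ℝ) := by
          simp only [card_filter]
          push_cast
          exact sum_comm
      _ ≤ ∑ j ∈ Bw Y κ t c, 4 * Real.exp (Y / 2) := by
          apply sum_le_sum
          intro j _
          apply n_card hκ _ S (fun n hn => ⟨hS1 n hn, (hS n hn).2.1⟩) j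
          have := Real.add_one_le_exp (Y / 2)
          linarith
      _ = _ := by rw [sum_const, nsmul_eq_mul]
  have h5 : (S.card : ℝ) * (0.15 * (Real.exp (-(Y / 2)) / κ)) ≤
      1 / (κ * Y ^ (A + 1)) * (4 * Real.exp (Y / 2)) :=
    hdc.trans (mul_le_mul_of_nonneg_right hBw2 (by positivity))
  rw [le_div_iff₀ (by positivity)]
  have e1 : Real.exp Y = Real.exp (Y / 2) * Real.exp (Y / 2) := by
    rw [← Real.exp_add]; congr 1; ring
  have hex := Real.exp_pos (Y / 2)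
  have e2 : (S.card : ℝ) * Y ^ A * (0.15 * Y) ≤ 4 * Real.exp Y := by
    have h6 := mul_le_mul_of_nonneg_right h5 (show 0 ≤ κ * Y ^ (A + 1) * Real.exp (Y / 2) by positivity)
    have h7 : (S.card : ℝ) * (0.15 * (Real.exp (-(Y / 2)) / κ)) * (κ * Y ^ (A + 1) * Real.exp (Y / 2)) =
        (S.card : ℝ) * Y ^ A * (0.15 * Y) := by
      rw [Real.exp_neg, pow_succ]
      field_simp
    have h8 : 1 / (κ * Y ^ (A + 1)) * (4 * Real.exp (Y / 2)) * (κ * Y ^ (A + 1) * Real.exp (Y / 2)) =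
        4 * Real.exp Y := by
      rw [e1]
      field_simp
    rw [h7, h8] at h6
    exact h6
  have h9 : 0 ≤ (S.card : ℝ) * Y ^ A := by positivity
  have h10 : (S.card : ℝ) * Y ^ A * 4 ≤ (S.card : ℝ) * Y ^ A * (0.15 * Y) :=
    mul_le_mul_of_nonneg_left (by linarith) h9
  linarith

open Classical in
/-- **PRW** -/
theorem s_PRW (hBVG : S_BVG) (hPOOR : S_POOR) : S_PRW := by
  obtain ⟨c, hc, hblock⟩ := block hBVG hPOOR
  refine ⟨c, hc, fun A => ?_⟩
  obtain ⟨Y₀, hY₀⟩ := hblock (A + 2)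
  obtain ⟨m1, h1⟩ := Pool.Agent.H373R2.T7.ev_L' (2 * |Y₀| + 2 ^ (A + 2) + 10)
  have blk : ∀ X : ℕ, max m1 2 ≤ X →
      (((Ioc (X / 2) X).filter (fun n : ℕ => ((PR n).card : ℝ) < c * √(n : ℝ) / Real.log n)).card : ℝ) ≤
        X / Real.log X ^ (A + 1) := by
    intro X hX
    have b1 : m1 ≤ X := (le_max_left _ _).trans hX
    have b2 : 2 ≤ X := (le_max_right _ _).trans hX
    have c1 := h1 X b1
    set L := Real.log X with hL
    have hX0 : (0 : ℝ) < X := by exact_mod_cast (by omega : 0 < X)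
    have hab : Y₀ ≤ |Y₀| := le_abs_self _
    have hab0 := abs_nonneg Y₀
    have hpow : (0 : ℝ) < 2 ^ (A + 2) := by positivity
    have hL0 : 0 < L := by linarith
    have hl2 : 0 < Real.log 2 := Real.log_pos (by norm_num)
    have hl2' : Real.log 2 ≤ 0.7 := by have := Real.log_two_lt_d9; linarith
    set S := (Ioc (X / 2) X).filter (fun n : ℕ => ((PR n).card : ℝ) < c * √(n : ℝ) / Real.log n) with hS
    set Y1 := L - Real.log 2 - 1 / 5 with hY1
    set Y2 := Y1 - 2 / 5 with hY2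
    set S1 := S.filter (fun n : ℕ => L - Real.log 2 - 2 / 5 ≤ Real.log ((n : ℝ) / 2)) with hS1
    set S2 := S.filter (fun n : ℕ => ¬ L - Real.log 2 - 2 / 5 ≤ Real.log ((n : ℝ) / 2)) with hS2
    have hSc : (S.card : ℝ) = S1.card + S2.card := by
      exact_mod_cast (card_filter_add_card_filter_not (s := S)
        (p := fun n : ℕ => L - Real.log 2 - 2 / 5 ≤ Real.log ((n : ℝ) / 2))).symm
    have hlog : ∀ n ∈ S, Real.log ((n : ℝ) / 2) ≤ L - Real.log 2 ∧
        L - Real.log 2 - Real.log 2 ≤ Real.log ((n : ℝ) / 2) ∧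
        ((PR n).card : ℝ) < c * √(n : ℝ) / Real.log n := by
      intro n hn
      rw [hS, mem_filter, mem_Ioc] at hn
      have hn0 : (0 : ℝ) < n := by exact_mod_cast (by omega : 0 < n)
      refine ⟨?_, ?_, hn.2⟩
      · rw [Real.log_div hn0.ne' (by norm_num)]
        have : Real.log n ≤ L := Real.log_le_log hn0 (by exact_mod_cast hn.1.2)
        linarith
      · rw [Real.log_div hn0.ne' (by norm_num)]
        have e1 : (X : ℝ) / 2 ≤ n := by
          have : X ≤ 2 * n := by omega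
          have : (X : ℝ) ≤ 2 * n := by exact_mod_cast this
          linarith
        have e2 := Real.log_le_log (by positivity) e1
        rw [Real.log_div hX0.ne' (by norm_num)] at e2
        linarith
    have f1 : (S1.card : ℝ) ≤ Real.exp Y1 / Y1 ^ (A + 2) := by
      apply hY₀ Y1 (by linarith) S1
      intro n hn
      rw [hS1, mem_filter] at hn
      obtain ⟨g1, g2, g3⟩ := hlog n hn.1
      refine ⟨by linarith [hn.2], by linarith, g3⟩
    have f2 : (S2.card : ℝ) ≤ Real.exp Y2 / Y2 ^ (A + 2) := by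
      apply hY₀ Y2 (by linarith) S2
      intro n hn
      rw [hS2, mem_filter, not_le] at hn
      obtain ⟨g1, g2, g3⟩ := hlog n hn.1
      refine ⟨by linarith, by linarith [hn.2], g3⟩
    have hY2L : L / 2 ≤ Y2 := by linarith
    have hexp : Real.exp Y1 ≤ X / 2 := by
      have : Y1 ≤ Real.log ((X : ℝ) / 2) := by
        rw [Real.log_div hX0.ne' (by norm_num)]
        linarith
      rw [← Real.le_log_iff_exp_le (by positivity)]
      exact this
    have hexp2 : Real.exp Y2 ≤ X / 2 := (Real.exp_le_exp.2 (by linarith)).trans hexp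
    have g1 : Real.exp Y1 / Y1 ^ (A + 2) ≤ (X / 2) / (L / 2) ^ (A + 2) := by
      apply div_le_div₀ (by positivity) hexp (by positivity)
      exact pow_le_pow_left₀ (by positivity) (by linarith) _
    have g2 : Real.exp Y2 / Y2 ^ (A + 2) ≤ (X / 2) / (L / 2) ^ (A + 2) := by
      apply div_le_div₀ (by positivity) hexp2 (by positivity)
      exact pow_le_pow_left₀ (by positivity) hY2L _
    have g3 : (X : ℝ) / 2 / (L / 2) ^ (A + 2) + (X : ℝ) / 2 / (L / 2) ^ (A + 2) ≤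
        X / L ^ (A + 1) := by
      have e1 : (X : ℝ) / 2 / (L / 2) ^ (A + 2) + (X : ℝ) / 2 / (L / 2) ^ (A + 2) =
          X * 2 ^ (A + 2) / L ^ (A + 2) := by
        rw [div_pow]
        field_simp
        ring
      rw [e1, div_le_div_iff₀ (by positivity) (by positivity), pow_succ L (A + 1)]
      have e2 : (X : ℝ) * 2 ^ (A + 2) ≤ X * L := mul_le_mul_of_nonneg_left (by linarith) hX0.le
      calc (X : ℝ) * 2 ^ (A + 2) * L ^ (A + 1) ≤ X * L * L ^ (A + 1) :=
            mul_le_mul_of_nonneg_right e2 (by positivity)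
        _ = _ := by ring
    linarith
  obtain ⟨X₀, h⟩ := dyadic (fun n : ℕ => ((PR n).card : ℝ) < c * √(n : ℝ) / Real.log n) A
    (max m1 2) (fun X hX => by convert blk X hX)
  refine ⟨X₀, fun X hX => ?_⟩
  have h1 := h X hX
  convert h1 using 5
  rfl

end Pool.Agent.L7h50.TS
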